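import Pool.Agent.L5helper99.NCCA.OneDim

set_option autoImplicit false
set_option linter.unusedVariables false

namespace Pool.Agent.L5helper99.NCCA


lemma key2 (g : Fin 3 → Fin 3 → Fin 3 → Fin 3 → Fin 3 → Fin 3)
    (hN : ∀ Y : ZMod 5 → ZMod 5 → Fin 3, ∑ i, ∑ j,
      ((g (Y i j) (Y (i+1) j) (Y i (j+1)) (Y (i-1) j) (Y i (j-1)) : Fin 3) : ℕ) = ∑ i, ∑ j, (Y i j : ℕ))
    (c e n w s : Fin 3) :
    ((g c e n w s : Fin 3) : ℕ) + (g e 0 0 c 0 : Fin 3) + (g n 0 0 0 c : Fin 3) + (g w c 0 0 0 : Fin 3)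
      + (g s 0 c 0 0 : Fin 3) + (g 0 0 0 e 0 : Fin 3) + (g 0 0 0 0 n : Fin 3) + (g 0 w 0 0 0 : Fin 3)
      + (g 0 0 s 0 0 : Fin 3) + (g 0 0 0 n e : Fin 3) + (g 0 n 0 0 w : Fin 3) + (g 0 s w 0 0 : Fin 3)
      + (g 0 0 e s 0 : Fin 3) = c + e + n + w + s := by
  have main : ∀ c e n w s : Fin 3,
      (((g 0 0 0 0 0 : Fin 3) : ℕ) + ((g 0 0 0 0 0 : Fin 3) : ℕ) + ((g 0 w 0 0 0 : Fin 3) : ℕ) + ((g 0 0 0 0 0 : Fin 3) : ℕ) + ((g 0 0 0 0 0 : Fin 3) : ℕ)) +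
      (((g 0 0 0 0 0 : Fin 3) : ℕ) + ((g 0 s w 0 0 : Fin 3) : ℕ) + ((g w c 0 0 0 : Fin 3) : ℕ) + ((g 0 n 0 0 w : Fin 3) : ℕ) + ((g 0 0 0 0 0 : Fin 3) : ℕ)) +
      (((g 0 0 s 0 0 : Fin 3) : ℕ) + ((g s 0 c 0 0 : Fin 3) : ℕ) + ((g c e n w s : Fin 3) : ℕ) + ((g n 0 0 0 c : Fin 3) : ℕ) + ((g 0 0 0 0 n : Fin 3) : ℕ)) +
      (((g 0 0 0 0 0 : Fin 3) : ℕ) + ((g 0 0 e s 0 : Fin 3) : ℕ) + ((g e 0 0 c 0 : Fin 3) : ℕ) + ((g 0 0 0 n e : Fin 3) : ℕ) + ((g 0 0 0 0 0 : Fin 3) : ℕ)) +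
      (((g 0 0 0 0 0 : Fin 3) : ℕ) + ((g 0 0 0 0 0 : Fin 3) : ℕ) + ((g 0 0 0 e 0 : Fin 3) : ℕ) + ((g 0 0 0 0 0 : Fin 3) : ℕ) + ((g 0 0 0 0 0 : Fin 3) : ℕ))
      = (((0 : Fin 3) : ℕ) + ((0 : Fin 3) : ℕ) + ((0 : Fin 3) : ℕ) + ((0 : Fin 3) : ℕ) + ((0 : Fin 3) : ℕ)) + (((0 : Fin 3) : ℕ) + ((0 : Fin 3) : ℕ) + ((w : Fin 3) : ℕ) + ((0 : Fin 3) : ℕ) + ((0 : Fin 3) : ℕ)) + (((0 : Fin 3) : ℕ) + ((s : Fin 3) : ℕ) + ((c : Fin 3) : ℕ) + ((n : Fin 3) : ℕ) + ((0 : Fin 3) : ℕ)) + (((0 : Fin 3) : ℕ) + ((0 : Fin 3) : ℕ) + ((e : Fin 3) : ℕ) + ((0 : Fin 3) : ℕ) + ((0 : Fin 3) : ℕ)) + (((0 : Fin 3) : ℕ) + ((0 : Fin 3) : ℕ) + ((0 : Fin 3) : ℕ) + ((0 : Fin 3) : ℕ) + ((0 : Fin 3) : ℕ)) := by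
    intro c e n w s
    have := hN (fun i j : ZMod 5 => (![![0, 0, 0, 0, 0], ![0, 0, w, 0, 0], ![0, s, c, n, 0], ![0, 0, e, 0, 0], ![0, 0, 0, 0, 0]] : Fin 5 → Fin 5 → Fin 3) i j)
    change ∑ i : Fin 5, ∑ j : Fin 5, _ = ∑ i : Fin 5, ∑ j : Fin 5, _ at this
    simp only [Fin.sum_univ_five] at this
    exact this
  have z := main 0 0 0 0 0
  have m := main c e n w s
  simp only [Fin.val_zero] at z m
  omega


/-- The deviation from a projection vanishes on all pairs, up to two parameters. -/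
lemma core (δ : Fin 3 → Fin 3 → Fin 3 → Fin 3 → Fin 3 → ℤ)
    (K : ∀ c e n w s, δ c e n w s + δ e 0 0 c 0 + δ n 0 0 0 c + δ w c 0 0 0 + δ s 0 c 0 0
      + δ 0 0 0 e 0 + δ 0 0 0 0 n + δ 0 w 0 0 0 + δ 0 0 s 0 0 + δ 0 0 0 n e + δ 0 n 0 0 w
      + δ 0 s w 0 0 + δ 0 0 e s 0 = 0)
    (hc : ∀ a, δ a 0 0 0 0 = 0) (he : ∀ a, δ 0 a 0 0 0 = 0) (hn : ∀ a, δ 0 0 a 0 0 = 0)
    (hw : ∀ a, δ 0 0 0 a 0 = 0) (hs : ∀ a, δ 0 0 0 0 a = 0)
    (C1 : ∀ a b, δ a b a 0 a = 0) (C2 : ∀ a b, δ a a b a 0 = 0)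
    (C3 : ∀ a b, δ a b b 0 0 = 0) (C4 : ∀ a b, δ a b 0 0 b = 0) (a b : Fin 3) :
    δ b a 0 0 0 = - δ a b 0 0 0 ∧ δ a 0 0 b 0 = δ a b 0 0 0 ∧ δ a 0 b 0 0 = - δ a b 0 0 0 ∧
    δ a 0 0 0 b = - δ a b 0 0 0 ∧
    (δ a b 0 0 0 = 0 → δ b a 0 0 0 = 0 → 
      δ 0 0 0 a b = - δ 0 b a 0 0 ∧ δ 0 0 b a 0 = δ 0 b a 0 0 ∧ δ 0 b 0 0 a = - δ 0 b a 0 0 ∧
      δ 0 a b 0 0 = - δ 0 b a 0 0) := by
  have swd : ∀ x, δ 0 0 0 x x = 0 := by
    intro x
    have := K 0 x x 0 0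
    simp only [hc, he, hn, hw, hs, C3] at this
    linarith
  have nwd : ∀ x, δ 0 0 x x 0 = 0 := by
    intro x
    have := K 0 x 0 0 x
    simp only [hc, he, hn, hw, hs, C4] at this
    linarith
  have p1 : ∀ a b, δ a b 0 0 0 = - δ b 0 0 a 0 := by
    intro a b
    have := K a b 0 0 0
    simp only [hc, he, hn, hw, hs] at this
    linarith
  have p2 : ∀ a b, δ a 0 b 0 0 = - δ b 0 0 0 a := by
    intro a b
    have := K a 0 b 0 0
    simp only [hc, he, hn, hw, hs] at this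
    linarith
  have e3 : ∀ a b, δ b 0 0 0 a = - δ b 0 0 a 0 := by
    intro a b
    have := K a b b 0 0
    simp only [hc, he, hn, hw, hs, C3, swd] at this
    linarith
  have e4 : ∀ a b, δ b 0 a 0 0 = - δ b 0 0 a 0 := by
    intro a b
    have := K a b 0 0 b
    simp only [hc, he, hn, hw, hs, C4, nwd] at this
    linarith
  have anti : δ b a 0 0 0 = - δ a b 0 0 0 := by
    have h1 := p1 a b
    have h2 := p1 b a
    have h3 := p2 a b
    have h4 := e3 a b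
    have h5 := e4 b a
    linarith
  have q1 : δ a 0 0 b 0 = δ a b 0 0 0 := by
    have h2 := p1 b a
    linarith
  have q2 : δ a 0 b 0 0 = - δ a b 0 0 0 := by
    have h5 := e4 b a
    linarith
  have q3 : δ a 0 0 0 b = - δ a b 0 0 0 := by
    have h5 := e3 b a
    linarith
  refine ⟨anti, q1, q2, q3, ?_⟩
  intro z1 z2
  have w1 : δ b 0 0 a 0 = 0 := by have := p1 a b; linarith
  have w2 : δ a 0 0 b 0 = 0 := by have := p1 b a; linarith
  have diag : ∀ x, δ x x 0 0 0 = 0 := by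
    intro x
    have h1 := p1 x x
    have h3 := p2 x x
    have h4 := e3 x x
    have h5 := e4 x x
    linarith
  have c1 : δ 0 0 0 a b + δ 0 0 b a 0 = 0 := by
    have := K a b a 0 a
    have d1 := diag a
    have d2 := p1 a a
    have d3 := e3 a a
    have d4 := e4 a a
    simp only [hc, he, hn, hw, hs, C1] at this
    linarith
  have c2 : δ 0 0 0 b a + δ 0 b 0 0 a = 0 := by
    have := K a a b a 0
    have d1 := diag a
    have d2 := p1 a a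
    have d3 := e3 a b
    simp only [hc, he, hn, hw, hs, C2] at this
    linarith
  have c2' : δ 0 0 0 a b + δ 0 a 0 0 b = 0 := by
    have := K b b a b 0
    have d1 := diag b
    have d2 := p1 b b
    have d3 := e3 b a
    simp only [hc, he, hn, hw, hs, C2] at this
    linarith
  have p3 : δ 0 b a 0 0 + δ 0 0 0 a b = 0 := by
    have := K 0 b a 0 0
    simp only [hc, he, hn, hw, hs] at this
    linarith
  have p3' : δ 0 a b 0 0 + δ 0 0 0 b a = 0 := by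
    have := K 0 a b 0 0
    simp only [hc, he, hn, hw, hs] at this
    linarith
  have p4 : δ 0 0 b a 0 + δ 0 b 0 0 a = 0 := by
    have := K 0 0 b a 0
    simp only [hc, he, hn, hw, hs] at this
    linarith
  refine ⟨by linarith, by linarith, by linarith, by linarith⟩

lemma class2_aux (g : Fin 3 → Fin 3 → Fin 3 → Fin 3 → Fin 3 → Fin 3)
    (key : ∀ c e n w s : Fin 3, ((g c e n w s : Fin 3) : ℕ) + (g e 0 0 c 0 : Fin 3) + (g n 0 0 0 c : Fin 3)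
      + (g w c 0 0 0 : Fin 3)
      + (g s 0 c 0 0 : Fin 3) + (g 0 0 0 e 0 : Fin 3) + (g 0 0 0 0 n : Fin 3) + (g 0 w 0 0 0 : Fin 3)
      + (g 0 0 s 0 0 : Fin 3) + (g 0 0 0 n e : Fin 3) + (g 0 n 0 0 w : Fin 3) + (g 0 s w 0 0 : Fin 3)
      + (g 0 0 e s 0 : Fin 3) = c + e + n + w + s)
    (T : Fin 3 → Fin 3 → Fin 3 → Fin 3 → Fin 3 → Fin 3)
    (hT : (T = fun c e n w s => c) ∨ (T = fun c e n w s => e) ∨ (T = fun c e n w s => n) ∨
      (T = fun c e n w s => w) ∨ (T = fun c e n w s => s))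
    (hc : ∀ a, g a 0 0 0 0 = T a 0 0 0 0) (he : ∀ a, g 0 a 0 0 0 = T 0 a 0 0 0)
    (hn : ∀ a, g 0 0 a 0 0 = T 0 0 a 0 0)
    (hw : ∀ a, g 0 0 0 a 0 = T 0 0 0 a 0) (hs : ∀ a, g 0 0 0 0 a = T 0 0 0 0 a)
    (C1 : ∀ a b, g a b a 0 a = T a b a 0 a) (C2 : ∀ a b, g a a b a 0 = T a a b a 0)
    (C3 : ∀ a b, g a b b 0 0 = T a b b 0 0) (C4 : ∀ a b, g a b 0 0 b = T a b 0 0 b) :
    ∀ c e n w s, g c e n w s = T c e n w s := by
  have hco := core (fun c e n w s => ((g c e n w s : Fin 3) : ℤ) - (T c e n w s : Fin 3))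
    (by
      intro c e n w s
      have := key c e n w s
      zify at this
      rcases hT with h | h | h | h | h <;> subst h <;> simp <;> linarith)
    (by intro a; simp [hc]) (by intro a; simp [he]) (by intro a; simp [hn]) (by intro a; simp [hw])
    (by intro a; simp [hs]) (by intro a b; simp [C1]) (by intro a b; simp [C2]) (by intro a b; simp [C3])
    (by intro a b; simp [C4])
  have hq : ∀ a b, ((g a b 0 0 0 : Fin 3) : ℤ) - (T a b 0 0 0 : Fin 3) = 0 := by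
    intro a b
    obtain ⟨h1, h2, h3, h4, -⟩ := hco a b
    obtain ⟨h1', h2', h3', h4', -⟩ := hco b a
    have b1 := (g a b 0 0 0).2
    have b2 := (g b a 0 0 0).2
    have b3 := (g a 0 0 b 0).2
    have b4 := (g b 0 0 a 0).2
    have b5 := (g a 0 b 0 0).2
    have b6 := (g b 0 a 0 0).2
    have b7 := (g a 0 0 0 b).2
    have b8 := (g b 0 0 0 a).2
    have ha := a.2
    have hb := b.2
    rcases eq_or_ne a b with hab | hab
    · subst hab
      clear hco key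
      omega
    · have hab' : (a : ℕ) ≠ b := fun h => hab (Fin.ext h)
      rcases hT with h | h | h | h | h <;> subst h <;> simp only [Fin.val_zero] at * <;> omega
  have hd : ∀ a b, ((g 0 b a 0 0 : Fin 3) : ℤ) - (T 0 b a 0 0 : Fin 3) = 0 := by
    intro a b
    obtain ⟨-, -, -, -, h5⟩ := hco a b
    obtain ⟨h1, h2, h3, h4⟩ := h5 (hq a b) (hq b a)
    obtain ⟨-, -, -, -, h5⟩ := hco b a
    obtain ⟨h1', h2', h3', h4'⟩ := h5 (hq b a) (hq a b)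
    clear h5 hco key
    rcases hT with h | h | h | h | h <;> subst h <;> simp only [Fin.val_zero] at * <;> omega
  intro c e n w s
  have k := key c e n w s
  have r1 : ∀ a b, g a b 0 0 0 = T a b 0 0 0 := by
    intro a b; have := hq a b; apply Fin.ext; omega
  have r2 : ∀ a b, g a 0 0 b 0 = T a 0 0 b 0 := by
    intro a b
    obtain ⟨h1, h2, h3, h4, -⟩ := hco a b
    have := hq a b
    apply Fin.ext; omega
  have r3 : ∀ a b, g a 0 b 0 0 = T a 0 b 0 0 := by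
    intro a b
    obtain ⟨h1, h2, h3, h4, -⟩ := hco a b
    have := hq a b
    apply Fin.ext; omega
  have r4 : ∀ a b, g a 0 0 0 b = T a 0 0 0 b := by
    intro a b
    obtain ⟨h1, h2, h3, h4, -⟩ := hco a b
    have := hq a b
    apply Fin.ext; omega
  have r5 : ∀ a b, g 0 b a 0 0 = T 0 b a 0 0 := by
    intro a b; have := hd a b; apply Fin.ext; omega
  have r6 : ∀ a b, g 0 0 0 a b = T 0 0 0 a b := by
    intro a b
    obtain ⟨h1, h2, h3, h4⟩ := (hco a b).2.2.2.2 (hq a b) (hq b a)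
    have := hd a b
    apply Fin.ext; omega
  have r7 : ∀ a b, g 0 0 b a 0 = T 0 0 b a 0 := by
    intro a b
    obtain ⟨h1, h2, h3, h4⟩ := (hco a b).2.2.2.2 (hq a b) (hq b a)
    have := hd a b
    apply Fin.ext; omega
  have r8 : ∀ a b, g 0 b 0 0 a = T 0 b 0 0 a := by
    intro a b
    obtain ⟨h1, h2, h3, h4⟩ := (hco a b).2.2.2.2 (hq a b) (hq b a)
    have := hd a b
    apply Fin.ext; omega
  rw [r2 e c, r4 n c, r1 w c, r3 s c, hw e, hs n, he w, hn s, r6 n e, r8 w n, r5 w s, r7 s e] at k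
  clear r1 r2 r3 r4 r5 r6 r7 r8 hq hd hco key
  apply Fin.ext
  rcases hT with h | h | h | h | h <;> subst h <;> simp only [Fin.val_zero] at k ⊢ <;> omega


set_option maxHeartbeats 4000000 in
theorem class2 (g : Fin 3 → Fin 3 → Fin 3 → Fin 3 → Fin 3 → Fin 3)
    (hN : ∀ Y : ZMod 5 → ZMod 5 → Fin 3, ∑ i, ∑ j,
      ((g (Y i j) (Y (i+1) j) (Y i (j+1)) (Y (i-1) j) (Y i (j-1)) : Fin 3) : ℕ) = ∑ i, ∑ j, (Y i j : ℕ))
    (c1 : Proj (fun l c r => g c r c l c)) (c2 : Proj (fun l c r => g c c r c l))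
    (c3 : Proj (fun l c r => g c r r l l)) (c4 : Proj (fun l c r => g c r l l r)) :
    (∀ c e n w s, g c e n w s = c) ∨ (∀ c e n w s, g c e n w s = e) ∨ (∀ c e n w s, g c e n w s = n) ∨
    (∀ c e n w s, g c e n w s = w) ∨ (∀ c e n w s, g c e n w s = s) := by
  have key := key2 g hN
  have Z0 : ((g 0 0 0 0 0 : Fin 3) : ℕ) = 0 := by
    have := key 0 0 0 0 0
    simp only [Fin.val_zero] at this
    omega
  have e0 : ((0 : Fin 3) : ℕ) = 0 := rfl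
  have e1 : ((1 : Fin 3) : ℕ) = 1 := rfl
  have KA := fun a => key a 0 0 0 0
  have K1 := key 1 1 0 0 0
  have K2 := key 1 0 1 0 0
  have K3 := key 0 1 1 0 0
  have K4 := key 0 0 1 1 0
  have K5 := key 1 1 1 0 1
  have K6 := key 1 1 1 1 0
  have K7 := key 1 0 0 0 0
  have B1 := (g 1 1 0 0 0).2
  have B2 := (g 1 0 1 0 0).2
  have B3 := (g 1 0 0 1 0).2
  have B4 := (g 1 0 0 0 1).2
  simp only [Fin.val_zero, Fin.val_one, Z0] at K1 K2 K3 K4 K5 K6 K7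
  rcases c1 with c1 | c1 | c1 <;> rcases c2 with c2 | c2 | c2
  · -- l l
    have c1_001 : ((g 0 1 0 0 0 : Fin 3) : ℕ) = 0 := congrArg Fin.val (c1 0 0 1)
    have c1_100 : ((g 0 0 0 1 0 : Fin 3) : ℕ) = 1 := congrArg Fin.val (c1 1 0 0)
    have c1_011 : ((g 1 1 1 0 1 : Fin 3) : ℕ) = 0 := congrArg Fin.val (c1 0 1 1)
    have c2_001 : ((g 0 0 1 0 0 : Fin 3) : ℕ) = 0 := congrArg Fin.val (c2 0 0 1)
    have c2_100 : ((g 0 0 0 0 1 : Fin 3) : ℕ) = 1 := congrArg Fin.val (c2 1 0 0)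
    have c2_011 : ((g 1 1 1 1 0 : Fin 3) : ℕ) = 0 := congrArg Fin.val (c2 0 1 1)
    exfalso; omega
  · -- l c
    have c1_001 : ((g 0 1 0 0 0 : Fin 3) : ℕ) = 0 := congrArg Fin.val (c1 0 0 1)
    have c1_100 : ((g 0 0 0 1 0 : Fin 3) : ℕ) = 1 := congrArg Fin.val (c1 1 0 0)
    have c1_011 : ((g 1 1 1 0 1 : Fin 3) : ℕ) = 0 := congrArg Fin.val (c1 0 1 1)
    have c2_001 : ((g 0 0 1 0 0 : Fin 3) : ℕ) = 0 := congrArg Fin.val (c2 0 0 1)
    have c2_100 : ((g 0 0 0 0 1 : Fin 3) : ℕ) = 0 := congrArg Fin.val (c2 1 0 0)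
    have c2_011 : ((g 1 1 1 1 0 : Fin 3) : ℕ) = 1 := congrArg Fin.val (c2 0 1 1)
    have c3' : ∀ l c r, g c r r l l = l := by
      rcases c3 with c3 | c3 | c3 <;> rcases c4 with c4 | c4 | c4
      · exact c3
      · exact c3
      · exact c3
      · exfalso
        have c3_001 : ((g 0 1 1 0 0 : Fin 3) : ℕ) = 0 := congrArg Fin.val (c3 0 0 1)
        have c3_100 : ((g 0 0 0 1 1 : Fin 3) : ℕ) = 0 := congrArg Fin.val (c3 1 0 0)
        have c3_010 : ((g 1 0 0 0 0 : Fin 3) : ℕ) = 1 := congrArg Fin.val (c3 0 1 0)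
        have c4_001 : ((g 0 1 0 0 1 : Fin 3) : ℕ) = 0 := congrArg Fin.val (c4 0 0 1)
        have c4_100 : ((g 0 0 1 1 0 : Fin 3) : ℕ) = 1 := congrArg Fin.val (c4 1 0 0)
        have c4_010 : ((g 1 0 0 0 0 : Fin 3) : ℕ) = 0 := congrArg Fin.val (c4 0 1 0)
        omega
      · exfalso
        have c3_001 : ((g 0 1 1 0 0 : Fin 3) : ℕ) = 0 := congrArg Fin.val (c3 0 0 1)
        have c3_100 : ((g 0 0 0 1 1 : Fin 3) : ℕ) = 0 := congrArg Fin.val (c3 1 0 0)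
        have c3_010 : ((g 1 0 0 0 0 : Fin 3) : ℕ) = 1 := congrArg Fin.val (c3 0 1 0)
        have c4_001 : ((g 0 1 0 0 1 : Fin 3) : ℕ) = 0 := congrArg Fin.val (c4 0 0 1)
        have c4_100 : ((g 0 0 1 1 0 : Fin 3) : ℕ) = 0 := congrArg Fin.val (c4 1 0 0)
        have c4_010 : ((g 1 0 0 0 0 : Fin 3) : ℕ) = 1 := congrArg Fin.val (c4 0 1 0)
        omega
      · exfalso
        have c3_001 : ((g 0 1 1 0 0 : Fin 3) : ℕ) = 0 := congrArg Fin.val (c3 0 0 1)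
        have c3_100 : ((g 0 0 0 1 1 : Fin 3) : ℕ) = 0 := congrArg Fin.val (c3 1 0 0)
        have c3_010 : ((g 1 0 0 0 0 : Fin 3) : ℕ) = 1 := congrArg Fin.val (c3 0 1 0)
        have c4_001 : ((g 0 1 0 0 1 : Fin 3) : ℕ) = 1 := congrArg Fin.val (c4 0 0 1)
        have c4_100 : ((g 0 0 1 1 0 : Fin 3) : ℕ) = 0 := congrArg Fin.val (c4 1 0 0)
        have c4_010 : ((g 1 0 0 0 0 : Fin 3) : ℕ) = 0 := congrArg Fin.val (c4 0 1 0)
        omega
      · exfalso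
        have c3_001 : ((g 0 1 1 0 0 : Fin 3) : ℕ) = 1 := congrArg Fin.val (c3 0 0 1)
        have c3_100 : ((g 0 0 0 1 1 : Fin 3) : ℕ) = 0 := congrArg Fin.val (c3 1 0 0)
        have c3_010 : ((g 1 0 0 0 0 : Fin 3) : ℕ) = 0 := congrArg Fin.val (c3 0 1 0)
        have c4_001 : ((g 0 1 0 0 1 : Fin 3) : ℕ) = 0 := congrArg Fin.val (c4 0 0 1)
        have c4_100 : ((g 0 0 1 1 0 : Fin 3) : ℕ) = 1 := congrArg Fin.val (c4 1 0 0)
        have c4_010 : ((g 1 0 0 0 0 : Fin 3) : ℕ) = 0 := congrArg Fin.val (c4 0 1 0)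
        omega
      · exfalso
        have c3_001 : ((g 0 1 1 0 0 : Fin 3) : ℕ) = 1 := congrArg Fin.val (c3 0 0 1)
        have c3_100 : ((g 0 0 0 1 1 : Fin 3) : ℕ) = 0 := congrArg Fin.val (c3 1 0 0)
        have c3_010 : ((g 1 0 0 0 0 : Fin 3) : ℕ) = 0 := congrArg Fin.val (c3 0 1 0)
        have c4_001 : ((g 0 1 0 0 1 : Fin 3) : ℕ) = 0 := congrArg Fin.val (c4 0 0 1)
        have c4_100 : ((g 0 0 1 1 0 : Fin 3) : ℕ) = 0 := congrArg Fin.val (c4 1 0 0)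
        have c4_010 : ((g 1 0 0 0 0 : Fin 3) : ℕ) = 1 := congrArg Fin.val (c4 0 1 0)
        omega
      · exfalso
        have c3_001 : ((g 0 1 1 0 0 : Fin 3) : ℕ) = 1 := congrArg Fin.val (c3 0 0 1)
        have c3_100 : ((g 0 0 0 1 1 : Fin 3) : ℕ) = 0 := congrArg Fin.val (c3 1 0 0)
        have c3_010 : ((g 1 0 0 0 0 : Fin 3) : ℕ) = 0 := congrArg Fin.val (c3 0 1 0)
        have c4_001 : ((g 0 1 0 0 1 : Fin 3) : ℕ) = 1 := congrArg Fin.val (c4 0 0 1)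
        have c4_100 : ((g 0 0 1 1 0 : Fin 3) : ℕ) = 0 := congrArg Fin.val (c4 1 0 0)
        have c4_010 : ((g 1 0 0 0 0 : Fin 3) : ℕ) = 0 := congrArg Fin.val (c4 0 1 0)
        omega
    have c4' : ∀ l c r, g c r l l r = l := by
      rcases c3 with c3 | c3 | c3 <;> rcases c4 with c4 | c4 | c4
      · exact c4
      · exfalso
        have c3_001 : ((g 0 1 1 0 0 : Fin 3) : ℕ) = 0 := congrArg Fin.val (c3 0 0 1)
        have c3_100 : ((g 0 0 0 1 1 : Fin 3) : ℕ) = 1 := congrArg Fin.val (c3 1 0 0)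
        have c3_010 : ((g 1 0 0 0 0 : Fin 3) : ℕ) = 0 := congrArg Fin.val (c3 0 1 0)
        have c4_001 : ((g 0 1 0 0 1 : Fin 3) : ℕ) = 0 := congrArg Fin.val (c4 0 0 1)
        have c4_100 : ((g 0 0 1 1 0 : Fin 3) : ℕ) = 0 := congrArg Fin.val (c4 1 0 0)
        have c4_010 : ((g 1 0 0 0 0 : Fin 3) : ℕ) = 1 := congrArg Fin.val (c4 0 1 0)
        omega
      · exfalso
        have c3_001 : ((g 0 1 1 0 0 : Fin 3) : ℕ) = 0 := congrArg Fin.val (c3 0 0 1)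
        have c3_100 : ((g 0 0 0 1 1 : Fin 3) : ℕ) = 1 := congrArg Fin.val (c3 1 0 0)
        have c3_010 : ((g 1 0 0 0 0 : Fin 3) : ℕ) = 0 := congrArg Fin.val (c3 0 1 0)
        have c4_001 : ((g 0 1 0 0 1 : Fin 3) : ℕ) = 1 := congrArg Fin.val (c4 0 0 1)
        have c4_100 : ((g 0 0 1 1 0 : Fin 3) : ℕ) = 0 := congrArg Fin.val (c4 1 0 0)
        have c4_010 : ((g 1 0 0 0 0 : Fin 3) : ℕ) = 0 := congrArg Fin.val (c4 0 1 0)
        omega
      · exact c4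
      · exfalso
        have c3_001 : ((g 0 1 1 0 0 : Fin 3) : ℕ) = 0 := congrArg Fin.val (c3 0 0 1)
        have c3_100 : ((g 0 0 0 1 1 : Fin 3) : ℕ) = 0 := congrArg Fin.val (c3 1 0 0)
        have c3_010 : ((g 1 0 0 0 0 : Fin 3) : ℕ) = 1 := congrArg Fin.val (c3 0 1 0)
        have c4_001 : ((g 0 1 0 0 1 : Fin 3) : ℕ) = 0 := congrArg Fin.val (c4 0 0 1)
        have c4_100 : ((g 0 0 1 1 0 : Fin 3) : ℕ) = 0 := congrArg Fin.val (c4 1 0 0)
        have c4_010 : ((g 1 0 0 0 0 : Fin 3) : ℕ) = 1 := congrArg Fin.val (c4 0 1 0)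
        omega
      · exfalso
        have c3_001 : ((g 0 1 1 0 0 : Fin 3) : ℕ) = 0 := congrArg Fin.val (c3 0 0 1)
        have c3_100 : ((g 0 0 0 1 1 : Fin 3) : ℕ) = 0 := congrArg Fin.val (c3 1 0 0)
        have c3_010 : ((g 1 0 0 0 0 : Fin 3) : ℕ) = 1 := congrArg Fin.val (c3 0 1 0)
        have c4_001 : ((g 0 1 0 0 1 : Fin 3) : ℕ) = 1 := congrArg Fin.val (c4 0 0 1)
        have c4_100 : ((g 0 0 1 1 0 : Fin 3) : ℕ) = 0 := congrArg Fin.val (c4 1 0 0)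
        have c4_010 : ((g 1 0 0 0 0 : Fin 3) : ℕ) = 0 := congrArg Fin.val (c4 0 1 0)
        omega
      · exact c4
      · exfalso
        have c3_001 : ((g 0 1 1 0 0 : Fin 3) : ℕ) = 1 := congrArg Fin.val (c3 0 0 1)
        have c3_100 : ((g 0 0 0 1 1 : Fin 3) : ℕ) = 0 := congrArg Fin.val (c3 1 0 0)
        have c3_010 : ((g 1 0 0 0 0 : Fin 3) : ℕ) = 0 := congrArg Fin.val (c3 0 1 0)
        have c4_001 : ((g 0 1 0 0 1 : Fin 3) : ℕ) = 0 := congrArg Fin.val (c4 0 0 1)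
        have c4_100 : ((g 0 0 1 1 0 : Fin 3) : ℕ) = 0 := congrArg Fin.val (c4 1 0 0)
        have c4_010 : ((g 1 0 0 0 0 : Fin 3) : ℕ) = 1 := congrArg Fin.val (c4 0 1 0)
        omega
      · exfalso
        have c3_001 : ((g 0 1 1 0 0 : Fin 3) : ℕ) = 1 := congrArg Fin.val (c3 0 0 1)
        have c3_100 : ((g 0 0 0 1 1 : Fin 3) : ℕ) = 0 := congrArg Fin.val (c3 1 0 0)
        have c3_010 : ((g 1 0 0 0 0 : Fin 3) : ℕ) = 0 := congrArg Fin.val (c3 0 1 0)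
        have c4_001 : ((g 0 1 0 0 1 : Fin 3) : ℕ) = 1 := congrArg Fin.val (c4 0 0 1)
        have c4_100 : ((g 0 0 1 1 0 : Fin 3) : ℕ) = 0 := congrArg Fin.val (c4 1 0 0)
        have c4_010 : ((g 1 0 0 0 0 : Fin 3) : ℕ) = 0 := congrArg Fin.val (c4 0 1 0)
        omega
    have fin := class2_aux g key (fun c e n w s => w) (by simp)
      (by
        intro a
        have k := KA a
        have q1 := congrArg Fin.val (c1 0 0 a)
        have q2 := congrArg Fin.val (c1 a 0 0)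
        have q3 := congrArg Fin.val (c2 0 0 a)
        have q4 := congrArg Fin.val (c2 a 0 0)
        simp only [e0, Z0] at k q1 q2 q3 q4
        apply Fin.ext
        try simp only [e0]
        omega)
      (fun a => c1 0 0 a) (fun a => c2 0 0 a) (fun a => c1 a 0 0) (fun a => c2 a 0 0)
      (fun a b => c1 0 a b) (fun a b => c2 0 a b) (fun a b => c3' 0 a b) (fun a b => c4' 0 a b)
    exact Or.inr (Or.inr (Or.inr (Or.inl fin)))
  · -- l r
    have c1_001 : ((g 0 1 0 0 0 : Fin 3) : ℕ) = 0 := congrArg Fin.val (c1 0 0 1)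
    have c1_100 : ((g 0 0 0 1 0 : Fin 3) : ℕ) = 1 := congrArg Fin.val (c1 1 0 0)
    have c1_011 : ((g 1 1 1 0 1 : Fin 3) : ℕ) = 0 := congrArg Fin.val (c1 0 1 1)
    have c2_001 : ((g 0 0 1 0 0 : Fin 3) : ℕ) = 1 := congrArg Fin.val (c2 0 0 1)
    have c2_100 : ((g 0 0 0 0 1 : Fin 3) : ℕ) = 0 := congrArg Fin.val (c2 1 0 0)
    have c2_011 : ((g 1 1 1 1 0 : Fin 3) : ℕ) = 1 := congrArg Fin.val (c2 0 1 1)
    exfalso; omega
  · -- c l
    have c1_001 : ((g 0 1 0 0 0 : Fin 3) : ℕ) = 0 := congrArg Fin.val (c1 0 0 1)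
    have c1_100 : ((g 0 0 0 1 0 : Fin 3) : ℕ) = 0 := congrArg Fin.val (c1 1 0 0)
    have c1_011 : ((g 1 1 1 0 1 : Fin 3) : ℕ) = 1 := congrArg Fin.val (c1 0 1 1)
    have c2_001 : ((g 0 0 1 0 0 : Fin 3) : ℕ) = 0 := congrArg Fin.val (c2 0 0 1)
    have c2_100 : ((g 0 0 0 0 1 : Fin 3) : ℕ) = 1 := congrArg Fin.val (c2 1 0 0)
    have c2_011 : ((g 1 1 1 1 0 : Fin 3) : ℕ) = 0 := congrArg Fin.val (c2 0 1 1)
    have c3' : ∀ l c r, g c r r l l = l := by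
      rcases c3 with c3 | c3 | c3 <;> rcases c4 with c4 | c4 | c4
      · exact c3
      · exact c3
      · exact c3
      · exfalso
        have c3_001 : ((g 0 1 1 0 0 : Fin 3) : ℕ) = 0 := congrArg Fin.val (c3 0 0 1)
        have c3_100 : ((g 0 0 0 1 1 : Fin 3) : ℕ) = 0 := congrArg Fin.val (c3 1 0 0)
        have c3_010 : ((g 1 0 0 0 0 : Fin 3) : ℕ) = 1 := congrArg Fin.val (c3 0 1 0)
        have c4_001 : ((g 0 1 0 0 1 : Fin 3) : ℕ) = 0 := congrArg Fin.val (c4 0 0 1)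
        have c4_100 : ((g 0 0 1 1 0 : Fin 3) : ℕ) = 1 := congrArg Fin.val (c4 1 0 0)
        have c4_010 : ((g 1 0 0 0 0 : Fin 3) : ℕ) = 0 := congrArg Fin.val (c4 0 1 0)
        omega
      · exfalso
        have c3_001 : ((g 0 1 1 0 0 : Fin 3) : ℕ) = 0 := congrArg Fin.val (c3 0 0 1)
        have c3_100 : ((g 0 0 0 1 1 : Fin 3) : ℕ) = 0 := congrArg Fin.val (c3 1 0 0)
        have c3_010 : ((g 1 0 0 0 0 : Fin 3) : ℕ) = 1 := congrArg Fin.val (c3 0 1 0)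
        have c4_001 : ((g 0 1 0 0 1 : Fin 3) : ℕ) = 0 := congrArg Fin.val (c4 0 0 1)
        have c4_100 : ((g 0 0 1 1 0 : Fin 3) : ℕ) = 0 := congrArg Fin.val (c4 1 0 0)
        have c4_010 : ((g 1 0 0 0 0 : Fin 3) : ℕ) = 1 := congrArg Fin.val (c4 0 1 0)
        omega
      · exfalso
        have c3_001 : ((g 0 1 1 0 0 : Fin 3) : ℕ) = 0 := congrArg Fin.val (c3 0 0 1)
        have c3_100 : ((g 0 0 0 1 1 : Fin 3) : ℕ) = 0 := congrArg Fin.val (c3 1 0 0)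
        have c3_010 : ((g 1 0 0 0 0 : Fin 3) : ℕ) = 1 := congrArg Fin.val (c3 0 1 0)
        have c4_001 : ((g 0 1 0 0 1 : Fin 3) : ℕ) = 1 := congrArg Fin.val (c4 0 0 1)
        have c4_100 : ((g 0 0 1 1 0 : Fin 3) : ℕ) = 0 := congrArg Fin.val (c4 1 0 0)
        have c4_010 : ((g 1 0 0 0 0 : Fin 3) : ℕ) = 0 := congrArg Fin.val (c4 0 1 0)
        omega
      · exfalso
        have c3_001 : ((g 0 1 1 0 0 : Fin 3) : ℕ) = 1 := congrArg Fin.val (c3 0 0 1)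
        have c3_100 : ((g 0 0 0 1 1 : Fin 3) : ℕ) = 0 := congrArg Fin.val (c3 1 0 0)
        have c3_010 : ((g 1 0 0 0 0 : Fin 3) : ℕ) = 0 := congrArg Fin.val (c3 0 1 0)
        have c4_001 : ((g 0 1 0 0 1 : Fin 3) : ℕ) = 0 := congrArg Fin.val (c4 0 0 1)
        have c4_100 : ((g 0 0 1 1 0 : Fin 3) : ℕ) = 1 := congrArg Fin.val (c4 1 0 0)
        have c4_010 : ((g 1 0 0 0 0 : Fin 3) : ℕ) = 0 := congrArg Fin.val (c4 0 1 0)
        omega
      · exfalso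
        have c3_001 : ((g 0 1 1 0 0 : Fin 3) : ℕ) = 1 := congrArg Fin.val (c3 0 0 1)
        have c3_100 : ((g 0 0 0 1 1 : Fin 3) : ℕ) = 0 := congrArg Fin.val (c3 1 0 0)
        have c3_010 : ((g 1 0 0 0 0 : Fin 3) : ℕ) = 0 := congrArg Fin.val (c3 0 1 0)
        have c4_001 : ((g 0 1 0 0 1 : Fin 3) : ℕ) = 0 := congrArg Fin.val (c4 0 0 1)
        have c4_100 : ((g 0 0 1 1 0 : Fin 3) : ℕ) = 0 := congrArg Fin.val (c4 1 0 0)
        have c4_010 : ((g 1 0 0 0 0 : Fin 3) : ℕ) = 1 := congrArg Fin.val (c4 0 1 0)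
        omega
      · exfalso
        have c3_001 : ((g 0 1 1 0 0 : Fin 3) : ℕ) = 1 := congrArg Fin.val (c3 0 0 1)
        have c3_100 : ((g 0 0 0 1 1 : Fin 3) : ℕ) = 0 := congrArg Fin.val (c3 1 0 0)
        have c3_010 : ((g 1 0 0 0 0 : Fin 3) : ℕ) = 0 := congrArg Fin.val (c3 0 1 0)
        have c4_001 : ((g 0 1 0 0 1 : Fin 3) : ℕ) = 1 := congrArg Fin.val (c4 0 0 1)
        have c4_100 : ((g 0 0 1 1 0 : Fin 3) : ℕ) = 0 := congrArg Fin.val (c4 1 0 0)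
        have c4_010 : ((g 1 0 0 0 0 : Fin 3) : ℕ) = 0 := congrArg Fin.val (c4 0 1 0)
        omega
    have c4' : ∀ l c r, g c r l l r = r := by
      rcases c3 with c3 | c3 | c3 <;> rcases c4 with c4 | c4 | c4
      · exfalso
        have c3_001 : ((g 0 1 1 0 0 : Fin 3) : ℕ) = 0 := congrArg Fin.val (c3 0 0 1)
        have c3_100 : ((g 0 0 0 1 1 : Fin 3) : ℕ) = 1 := congrArg Fin.val (c3 1 0 0)
        have c3_010 : ((g 1 0 0 0 0 : Fin 3) : ℕ) = 0 := congrArg Fin.val (c3 0 1 0)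
        have c4_001 : ((g 0 1 0 0 1 : Fin 3) : ℕ) = 0 := congrArg Fin.val (c4 0 0 1)
        have c4_100 : ((g 0 0 1 1 0 : Fin 3) : ℕ) = 1 := congrArg Fin.val (c4 1 0 0)
        have c4_010 : ((g 1 0 0 0 0 : Fin 3) : ℕ) = 0 := congrArg Fin.val (c4 0 1 0)
        omega
      · exfalso
        have c3_001 : ((g 0 1 1 0 0 : Fin 3) : ℕ) = 0 := congrArg Fin.val (c3 0 0 1)
        have c3_100 : ((g 0 0 0 1 1 : Fin 3) : ℕ) = 1 := congrArg Fin.val (c3 1 0 0)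
        have c3_010 : ((g 1 0 0 0 0 : Fin 3) : ℕ) = 0 := congrArg Fin.val (c3 0 1 0)
        have c4_001 : ((g 0 1 0 0 1 : Fin 3) : ℕ) = 0 := congrArg Fin.val (c4 0 0 1)
        have c4_100 : ((g 0 0 1 1 0 : Fin 3) : ℕ) = 0 := congrArg Fin.val (c4 1 0 0)
        have c4_010 : ((g 1 0 0 0 0 : Fin 3) : ℕ) = 1 := congrArg Fin.val (c4 0 1 0)
        omega
      · exact c4
      · exfalso
        have c3_001 : ((g 0 1 1 0 0 : Fin 3) : ℕ) = 0 := congrArg Fin.val (c3 0 0 1)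
        have c3_100 : ((g 0 0 0 1 1 : Fin 3) : ℕ) = 0 := congrArg Fin.val (c3 1 0 0)
        have c3_010 : ((g 1 0 0 0 0 : Fin 3) : ℕ) = 1 := congrArg Fin.val (c3 0 1 0)
        have c4_001 : ((g 0 1 0 0 1 : Fin 3) : ℕ) = 0 := congrArg Fin.val (c4 0 0 1)
        have c4_100 : ((g 0 0 1 1 0 : Fin 3) : ℕ) = 1 := congrArg Fin.val (c4 1 0 0)
        have c4_010 : ((g 1 0 0 0 0 : Fin 3) : ℕ) = 0 := congrArg Fin.val (c4 0 1 0)
        omega
      · exfalso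
        have c3_001 : ((g 0 1 1 0 0 : Fin 3) : ℕ) = 0 := congrArg Fin.val (c3 0 0 1)
        have c3_100 : ((g 0 0 0 1 1 : Fin 3) : ℕ) = 0 := congrArg Fin.val (c3 1 0 0)
        have c3_010 : ((g 1 0 0 0 0 : Fin 3) : ℕ) = 1 := congrArg Fin.val (c3 0 1 0)
        have c4_001 : ((g 0 1 0 0 1 : Fin 3) : ℕ) = 0 := congrArg Fin.val (c4 0 0 1)
        have c4_100 : ((g 0 0 1 1 0 : Fin 3) : ℕ) = 0 := congrArg Fin.val (c4 1 0 0)
        have c4_010 : ((g 1 0 0 0 0 : Fin 3) : ℕ) = 1 := congrArg Fin.val (c4 0 1 0)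
        omega
      · exact c4
      · exfalso
        have c3_001 : ((g 0 1 1 0 0 : Fin 3) : ℕ) = 1 := congrArg Fin.val (c3 0 0 1)
        have c3_100 : ((g 0 0 0 1 1 : Fin 3) : ℕ) = 0 := congrArg Fin.val (c3 1 0 0)
        have c3_010 : ((g 1 0 0 0 0 : Fin 3) : ℕ) = 0 := congrArg Fin.val (c3 0 1 0)
        have c4_001 : ((g 0 1 0 0 1 : Fin 3) : ℕ) = 0 := congrArg Fin.val (c4 0 0 1)
        have c4_100 : ((g 0 0 1 1 0 : Fin 3) : ℕ) = 1 := congrArg Fin.val (c4 1 0 0)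
        have c4_010 : ((g 1 0 0 0 0 : Fin 3) : ℕ) = 0 := congrArg Fin.val (c4 0 1 0)
        omega
      · exfalso
        have c3_001 : ((g 0 1 1 0 0 : Fin 3) : ℕ) = 1 := congrArg Fin.val (c3 0 0 1)
        have c3_100 : ((g 0 0 0 1 1 : Fin 3) : ℕ) = 0 := congrArg Fin.val (c3 1 0 0)
        have c3_010 : ((g 1 0 0 0 0 : Fin 3) : ℕ) = 0 := congrArg Fin.val (c3 0 1 0)
        have c4_001 : ((g 0 1 0 0 1 : Fin 3) : ℕ) = 0 := congrArg Fin.val (c4 0 0 1)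
        have c4_100 : ((g 0 0 1 1 0 : Fin 3) : ℕ) = 0 := congrArg Fin.val (c4 1 0 0)
        have c4_010 : ((g 1 0 0 0 0 : Fin 3) : ℕ) = 1 := congrArg Fin.val (c4 0 1 0)
        omega
      · exact c4
    have fin := class2_aux g key (fun c e n w s => s) (by simp)
      (by
        intro a
        have k := KA a
        have q1 := congrArg Fin.val (c1 0 0 a)
        have q2 := congrArg Fin.val (c1 a 0 0)
        have q3 := congrArg Fin.val (c2 0 0 a)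
        have q4 := congrArg Fin.val (c2 a 0 0)
        simp only [e0, Z0] at k q1 q2 q3 q4
        apply Fin.ext
        try simp only [e0]
        omega)
      (fun a => c1 0 0 a) (fun a => c2 0 0 a) (fun a => c1 a 0 0) (fun a => c2 a 0 0)
      (fun a b => c1 0 a b) (fun a b => c2 0 a b) (fun a b => c3' 0 a b) (fun a b => c4' 0 a b)
    exact Or.inr (Or.inr (Or.inr (Or.inr fin)))
  · -- c c
    have c1_001 : ((g 0 1 0 0 0 : Fin 3) : ℕ) = 0 := congrArg Fin.val (c1 0 0 1)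
    have c1_100 : ((g 0 0 0 1 0 : Fin 3) : ℕ) = 0 := congrArg Fin.val (c1 1 0 0)
    have c1_011 : ((g 1 1 1 0 1 : Fin 3) : ℕ) = 1 := congrArg Fin.val (c1 0 1 1)
    have c2_001 : ((g 0 0 1 0 0 : Fin 3) : ℕ) = 0 := congrArg Fin.val (c2 0 0 1)
    have c2_100 : ((g 0 0 0 0 1 : Fin 3) : ℕ) = 0 := congrArg Fin.val (c2 1 0 0)
    have c2_011 : ((g 1 1 1 1 0 : Fin 3) : ℕ) = 1 := congrArg Fin.val (c2 0 1 1)
    have c3' : ∀ l c r, g c r r l l = c := by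
      rcases c3 with c3 | c3 | c3 <;> rcases c4 with c4 | c4 | c4
      · exfalso
        have c3_001 : ((g 0 1 1 0 0 : Fin 3) : ℕ) = 0 := congrArg Fin.val (c3 0 0 1)
        have c3_100 : ((g 0 0 0 1 1 : Fin 3) : ℕ) = 1 := congrArg Fin.val (c3 1 0 0)
        have c3_010 : ((g 1 0 0 0 0 : Fin 3) : ℕ) = 0 := congrArg Fin.val (c3 0 1 0)
        have c4_001 : ((g 0 1 0 0 1 : Fin 3) : ℕ) = 0 := congrArg Fin.val (c4 0 0 1)
        have c4_100 : ((g 0 0 1 1 0 : Fin 3) : ℕ) = 1 := congrArg Fin.val (c4 1 0 0)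
        have c4_010 : ((g 1 0 0 0 0 : Fin 3) : ℕ) = 0 := congrArg Fin.val (c4 0 1 0)
        omega
      · exfalso
        have c3_001 : ((g 0 1 1 0 0 : Fin 3) : ℕ) = 0 := congrArg Fin.val (c3 0 0 1)
        have c3_100 : ((g 0 0 0 1 1 : Fin 3) : ℕ) = 1 := congrArg Fin.val (c3 1 0 0)
        have c3_010 : ((g 1 0 0 0 0 : Fin 3) : ℕ) = 0 := congrArg Fin.val (c3 0 1 0)
        have c4_001 : ((g 0 1 0 0 1 : Fin 3) : ℕ) = 0 := congrArg Fin.val (c4 0 0 1)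
        have c4_100 : ((g 0 0 1 1 0 : Fin 3) : ℕ) = 0 := congrArg Fin.val (c4 1 0 0)
        have c4_010 : ((g 1 0 0 0 0 : Fin 3) : ℕ) = 1 := congrArg Fin.val (c4 0 1 0)
        omega
      · exfalso
        have c3_001 : ((g 0 1 1 0 0 : Fin 3) : ℕ) = 0 := congrArg Fin.val (c3 0 0 1)
        have c3_100 : ((g 0 0 0 1 1 : Fin 3) : ℕ) = 1 := congrArg Fin.val (c3 1 0 0)
        have c3_010 : ((g 1 0 0 0 0 : Fin 3) : ℕ) = 0 := congrArg Fin.val (c3 0 1 0)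
        have c4_001 : ((g 0 1 0 0 1 : Fin 3) : ℕ) = 1 := congrArg Fin.val (c4 0 0 1)
        have c4_100 : ((g 0 0 1 1 0 : Fin 3) : ℕ) = 0 := congrArg Fin.val (c4 1 0 0)
        have c4_010 : ((g 1 0 0 0 0 : Fin 3) : ℕ) = 0 := congrArg Fin.val (c4 0 1 0)
        omega
      · exact c3
      · exact c3
      · exact c3
      · exfalso
        have c3_001 : ((g 0 1 1 0 0 : Fin 3) : ℕ) = 1 := congrArg Fin.val (c3 0 0 1)
        have c3_100 : ((g 0 0 0 1 1 : Fin 3) : ℕ) = 0 := congrArg Fin.val (c3 1 0 0)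
        have c3_010 : ((g 1 0 0 0 0 : Fin 3) : ℕ) = 0 := congrArg Fin.val (c3 0 1 0)
        have c4_001 : ((g 0 1 0 0 1 : Fin 3) : ℕ) = 0 := congrArg Fin.val (c4 0 0 1)
        have c4_100 : ((g 0 0 1 1 0 : Fin 3) : ℕ) = 1 := congrArg Fin.val (c4 1 0 0)
        have c4_010 : ((g 1 0 0 0 0 : Fin 3) : ℕ) = 0 := congrArg Fin.val (c4 0 1 0)
        omega
      · exfalso
        have c3_001 : ((g 0 1 1 0 0 : Fin 3) : ℕ) = 1 := congrArg Fin.val (c3 0 0 1)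
        have c3_100 : ((g 0 0 0 1 1 : Fin 3) : ℕ) = 0 := congrArg Fin.val (c3 1 0 0)
        have c3_010 : ((g 1 0 0 0 0 : Fin 3) : ℕ) = 0 := congrArg Fin.val (c3 0 1 0)
        have c4_001 : ((g 0 1 0 0 1 : Fin 3) : ℕ) = 0 := congrArg Fin.val (c4 0 0 1)
        have c4_100 : ((g 0 0 1 1 0 : Fin 3) : ℕ) = 0 := congrArg Fin.val (c4 1 0 0)
        have c4_010 : ((g 1 0 0 0 0 : Fin 3) : ℕ) = 1 := congrArg Fin.val (c4 0 1 0)
        omega
      · exfalso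
        have c3_001 : ((g 0 1 1 0 0 : Fin 3) : ℕ) = 1 := congrArg Fin.val (c3 0 0 1)
        have c3_100 : ((g 0 0 0 1 1 : Fin 3) : ℕ) = 0 := congrArg Fin.val (c3 1 0 0)
        have c3_010 : ((g 1 0 0 0 0 : Fin 3) : ℕ) = 0 := congrArg Fin.val (c3 0 1 0)
        have c4_001 : ((g 0 1 0 0 1 : Fin 3) : ℕ) = 1 := congrArg Fin.val (c4 0 0 1)
        have c4_100 : ((g 0 0 1 1 0 : Fin 3) : ℕ) = 0 := congrArg Fin.val (c4 1 0 0)
        have c4_010 : ((g 1 0 0 0 0 : Fin 3) : ℕ) = 0 := congrArg Fin.val (c4 0 1 0)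
        omega
    have c4' : ∀ l c r, g c r l l r = c := by
      rcases c3 with c3 | c3 | c3 <;> rcases c4 with c4 | c4 | c4
      · exfalso
        have c3_001 : ((g 0 1 1 0 0 : Fin 3) : ℕ) = 0 := congrArg Fin.val (c3 0 0 1)
        have c3_100 : ((g 0 0 0 1 1 : Fin 3) : ℕ) = 1 := congrArg Fin.val (c3 1 0 0)
        have c3_010 : ((g 1 0 0 0 0 : Fin 3) : ℕ) = 0 := congrArg Fin.val (c3 0 1 0)
        have c4_001 : ((g 0 1 0 0 1 : Fin 3) : ℕ) = 0 := congrArg Fin.val (c4 0 0 1)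
        have c4_100 : ((g 0 0 1 1 0 : Fin 3) : ℕ) = 1 := congrArg Fin.val (c4 1 0 0)
        have c4_010 : ((g 1 0 0 0 0 : Fin 3) : ℕ) = 0 := congrArg Fin.val (c4 0 1 0)
        omega
      · exact c4
      · exfalso
        have c3_001 : ((g 0 1 1 0 0 : Fin 3) : ℕ) = 0 := congrArg Fin.val (c3 0 0 1)
        have c3_100 : ((g 0 0 0 1 1 : Fin 3) : ℕ) = 1 := congrArg Fin.val (c3 1 0 0)
        have c3_010 : ((g 1 0 0 0 0 : Fin 3) : ℕ) = 0 := congrArg Fin.val (c3 0 1 0)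
        have c4_001 : ((g 0 1 0 0 1 : Fin 3) : ℕ) = 1 := congrArg Fin.val (c4 0 0 1)
        have c4_100 : ((g 0 0 1 1 0 : Fin 3) : ℕ) = 0 := congrArg Fin.val (c4 1 0 0)
        have c4_010 : ((g 1 0 0 0 0 : Fin 3) : ℕ) = 0 := congrArg Fin.val (c4 0 1 0)
        omega
      · exfalso
        have c3_001 : ((g 0 1 1 0 0 : Fin 3) : ℕ) = 0 := congrArg Fin.val (c3 0 0 1)
        have c3_100 : ((g 0 0 0 1 1 : Fin 3) : ℕ) = 0 := congrArg Fin.val (c3 1 0 0)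
        have c3_010 : ((g 1 0 0 0 0 : Fin 3) : ℕ) = 1 := congrArg Fin.val (c3 0 1 0)
        have c4_001 : ((g 0 1 0 0 1 : Fin 3) : ℕ) = 0 := congrArg Fin.val (c4 0 0 1)
        have c4_100 : ((g 0 0 1 1 0 : Fin 3) : ℕ) = 1 := congrArg Fin.val (c4 1 0 0)
        have c4_010 : ((g 1 0 0 0 0 : Fin 3) : ℕ) = 0 := congrArg Fin.val (c4 0 1 0)
        omega
      · exact c4
      · exfalso
        have c3_001 : ((g 0 1 1 0 0 : Fin 3) : ℕ) = 0 := congrArg Fin.val (c3 0 0 1)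
        have c3_100 : ((g 0 0 0 1 1 : Fin 3) : ℕ) = 0 := congrArg Fin.val (c3 1 0 0)
        have c3_010 : ((g 1 0 0 0 0 : Fin 3) : ℕ) = 1 := congrArg Fin.val (c3 0 1 0)
        have c4_001 : ((g 0 1 0 0 1 : Fin 3) : ℕ) = 1 := congrArg Fin.val (c4 0 0 1)
        have c4_100 : ((g 0 0 1 1 0 : Fin 3) : ℕ) = 0 := congrArg Fin.val (c4 1 0 0)
        have c4_010 : ((g 1 0 0 0 0 : Fin 3) : ℕ) = 0 := congrArg Fin.val (c4 0 1 0)
        omega
      · exfalso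
        have c3_001 : ((g 0 1 1 0 0 : Fin 3) : ℕ) = 1 := congrArg Fin.val (c3 0 0 1)
        have c3_100 : ((g 0 0 0 1 1 : Fin 3) : ℕ) = 0 := congrArg Fin.val (c3 1 0 0)
        have c3_010 : ((g 1 0 0 0 0 : Fin 3) : ℕ) = 0 := congrArg Fin.val (c3 0 1 0)
        have c4_001 : ((g 0 1 0 0 1 : Fin 3) : ℕ) = 0 := congrArg Fin.val (c4 0 0 1)
        have c4_100 : ((g 0 0 1 1 0 : Fin 3) : ℕ) = 1 := congrArg Fin.val (c4 1 0 0)
        have c4_010 : ((g 1 0 0 0 0 : Fin 3) : ℕ) = 0 := congrArg Fin.val (c4 0 1 0)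
        omega
      · exact c4
      · exfalso
        have c3_001 : ((g 0 1 1 0 0 : Fin 3) : ℕ) = 1 := congrArg Fin.val (c3 0 0 1)
        have c3_100 : ((g 0 0 0 1 1 : Fin 3) : ℕ) = 0 := congrArg Fin.val (c3 1 0 0)
        have c3_010 : ((g 1 0 0 0 0 : Fin 3) : ℕ) = 0 := congrArg Fin.val (c3 0 1 0)
        have c4_001 : ((g 0 1 0 0 1 : Fin 3) : ℕ) = 1 := congrArg Fin.val (c4 0 0 1)
        have c4_100 : ((g 0 0 1 1 0 : Fin 3) : ℕ) = 0 := congrArg Fin.val (c4 1 0 0)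
        have c4_010 : ((g 1 0 0 0 0 : Fin 3) : ℕ) = 0 := congrArg Fin.val (c4 0 1 0)
        omega
    have fin := class2_aux g key (fun c e n w s => c) (by simp)
      (by
        intro a
        have k := KA a
        have q1 := congrArg Fin.val (c1 0 0 a)
        have q2 := congrArg Fin.val (c1 a 0 0)
        have q3 := congrArg Fin.val (c2 0 0 a)
        have q4 := congrArg Fin.val (c2 a 0 0)
        simp only [e0, Z0] at k q1 q2 q3 q4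
        apply Fin.ext
        try simp only [e0]
        omega)
      (fun a => c1 0 0 a) (fun a => c2 0 0 a) (fun a => c1 a 0 0) (fun a => c2 a 0 0)
      (fun a b => c1 0 a b) (fun a b => c2 0 a b) (fun a b => c3' 0 a b) (fun a b => c4' 0 a b)
    exact Or.inl fin
  · -- c r
    have c1_001 : ((g 0 1 0 0 0 : Fin 3) : ℕ) = 0 := congrArg Fin.val (c1 0 0 1)
    have c1_100 : ((g 0 0 0 1 0 : Fin 3) : ℕ) = 0 := congrArg Fin.val (c1 1 0 0)
    have c1_011 : ((g 1 1 1 0 1 : Fin 3) : ℕ) = 1 := congrArg Fin.val (c1 0 1 1)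
    have c2_001 : ((g 0 0 1 0 0 : Fin 3) : ℕ) = 1 := congrArg Fin.val (c2 0 0 1)
    have c2_100 : ((g 0 0 0 0 1 : Fin 3) : ℕ) = 0 := congrArg Fin.val (c2 1 0 0)
    have c2_011 : ((g 1 1 1 1 0 : Fin 3) : ℕ) = 1 := congrArg Fin.val (c2 0 1 1)
    have c3' : ∀ l c r, g c r r l l = r := by
      rcases c3 with c3 | c3 | c3 <;> rcases c4 with c4 | c4 | c4
      · exfalso
        have c3_001 : ((g 0 1 1 0 0 : Fin 3) : ℕ) = 0 := congrArg Fin.val (c3 0 0 1)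
        have c3_100 : ((g 0 0 0 1 1 : Fin 3) : ℕ) = 1 := congrArg Fin.val (c3 1 0 0)
        have c3_010 : ((g 1 0 0 0 0 : Fin 3) : ℕ) = 0 := congrArg Fin.val (c3 0 1 0)
        have c4_001 : ((g 0 1 0 0 1 : Fin 3) : ℕ) = 0 := congrArg Fin.val (c4 0 0 1)
        have c4_100 : ((g 0 0 1 1 0 : Fin 3) : ℕ) = 1 := congrArg Fin.val (c4 1 0 0)
        have c4_010 : ((g 1 0 0 0 0 : Fin 3) : ℕ) = 0 := congrArg Fin.val (c4 0 1 0)
        omega
      · exfalso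
        have c3_001 : ((g 0 1 1 0 0 : Fin 3) : ℕ) = 0 := congrArg Fin.val (c3 0 0 1)
        have c3_100 : ((g 0 0 0 1 1 : Fin 3) : ℕ) = 1 := congrArg Fin.val (c3 1 0 0)
        have c3_010 : ((g 1 0 0 0 0 : Fin 3) : ℕ) = 0 := congrArg Fin.val (c3 0 1 0)
        have c4_001 : ((g 0 1 0 0 1 : Fin 3) : ℕ) = 0 := congrArg Fin.val (c4 0 0 1)
        have c4_100 : ((g 0 0 1 1 0 : Fin 3) : ℕ) = 0 := congrArg Fin.val (c4 1 0 0)
        have c4_010 : ((g 1 0 0 0 0 : Fin 3) : ℕ) = 1 := congrArg Fin.val (c4 0 1 0)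
        omega
      · exfalso
        have c3_001 : ((g 0 1 1 0 0 : Fin 3) : ℕ) = 0 := congrArg Fin.val (c3 0 0 1)
        have c3_100 : ((g 0 0 0 1 1 : Fin 3) : ℕ) = 1 := congrArg Fin.val (c3 1 0 0)
        have c3_010 : ((g 1 0 0 0 0 : Fin 3) : ℕ) = 0 := congrArg Fin.val (c3 0 1 0)
        have c4_001 : ((g 0 1 0 0 1 : Fin 3) : ℕ) = 1 := congrArg Fin.val (c4 0 0 1)
        have c4_100 : ((g 0 0 1 1 0 : Fin 3) : ℕ) = 0 := congrArg Fin.val (c4 1 0 0)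
        have c4_010 : ((g 1 0 0 0 0 : Fin 3) : ℕ) = 0 := congrArg Fin.val (c4 0 1 0)
        omega
      · exfalso
        have c3_001 : ((g 0 1 1 0 0 : Fin 3) : ℕ) = 0 := congrArg Fin.val (c3 0 0 1)
        have c3_100 : ((g 0 0 0 1 1 : Fin 3) : ℕ) = 0 := congrArg Fin.val (c3 1 0 0)
        have c3_010 : ((g 1 0 0 0 0 : Fin 3) : ℕ) = 1 := congrArg Fin.val (c3 0 1 0)
        have c4_001 : ((g 0 1 0 0 1 : Fin 3) : ℕ) = 0 := congrArg Fin.val (c4 0 0 1)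
        have c4_100 : ((g 0 0 1 1 0 : Fin 3) : ℕ) = 1 := congrArg Fin.val (c4 1 0 0)
        have c4_010 : ((g 1 0 0 0 0 : Fin 3) : ℕ) = 0 := congrArg Fin.val (c4 0 1 0)
        omega
      · exfalso
        have c3_001 : ((g 0 1 1 0 0 : Fin 3) : ℕ) = 0 := congrArg Fin.val (c3 0 0 1)
        have c3_100 : ((g 0 0 0 1 1 : Fin 3) : ℕ) = 0 := congrArg Fin.val (c3 1 0 0)
        have c3_010 : ((g 1 0 0 0 0 : Fin 3) : ℕ) = 1 := congrArg Fin.val (c3 0 1 0)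
        have c4_001 : ((g 0 1 0 0 1 : Fin 3) : ℕ) = 0 := congrArg Fin.val (c4 0 0 1)
        have c4_100 : ((g 0 0 1 1 0 : Fin 3) : ℕ) = 0 := congrArg Fin.val (c4 1 0 0)
        have c4_010 : ((g 1 0 0 0 0 : Fin 3) : ℕ) = 1 := congrArg Fin.val (c4 0 1 0)
        omega
      · exfalso
        have c3_001 : ((g 0 1 1 0 0 : Fin 3) : ℕ) = 0 := congrArg Fin.val (c3 0 0 1)
        have c3_100 : ((g 0 0 0 1 1 : Fin 3) : ℕ) = 0 := congrArg Fin.val (c3 1 0 0)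
        have c3_010 : ((g 1 0 0 0 0 : Fin 3) : ℕ) = 1 := congrArg Fin.val (c3 0 1 0)
        have c4_001 : ((g 0 1 0 0 1 : Fin 3) : ℕ) = 1 := congrArg Fin.val (c4 0 0 1)
        have c4_100 : ((g 0 0 1 1 0 : Fin 3) : ℕ) = 0 := congrArg Fin.val (c4 1 0 0)
        have c4_010 : ((g 1 0 0 0 0 : Fin 3) : ℕ) = 0 := congrArg Fin.val (c4 0 1 0)
        omega
      · exact c3
      · exact c3
      · exact c3
    have c4' : ∀ l c r, g c r l l r = l := by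
      rcases c3 with c3 | c3 | c3 <;> rcases c4 with c4 | c4 | c4
      · exact c4
      · exfalso
        have c3_001 : ((g 0 1 1 0 0 : Fin 3) : ℕ) = 0 := congrArg Fin.val (c3 0 0 1)
        have c3_100 : ((g 0 0 0 1 1 : Fin 3) : ℕ) = 1 := congrArg Fin.val (c3 1 0 0)
        have c3_010 : ((g 1 0 0 0 0 : Fin 3) : ℕ) = 0 := congrArg Fin.val (c3 0 1 0)
        have c4_001 : ((g 0 1 0 0 1 : Fin 3) : ℕ) = 0 := congrArg Fin.val (c4 0 0 1)
        have c4_100 : ((g 0 0 1 1 0 : Fin 3) : ℕ) = 0 := congrArg Fin.val (c4 1 0 0)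
        have c4_010 : ((g 1 0 0 0 0 : Fin 3) : ℕ) = 1 := congrArg Fin.val (c4 0 1 0)
        omega
      · exfalso
        have c3_001 : ((g 0 1 1 0 0 : Fin 3) : ℕ) = 0 := congrArg Fin.val (c3 0 0 1)
        have c3_100 : ((g 0 0 0 1 1 : Fin 3) : ℕ) = 1 := congrArg Fin.val (c3 1 0 0)
        have c3_010 : ((g 1 0 0 0 0 : Fin 3) : ℕ) = 0 := congrArg Fin.val (c3 0 1 0)
        have c4_001 : ((g 0 1 0 0 1 : Fin 3) : ℕ) = 1 := congrArg Fin.val (c4 0 0 1)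
        have c4_100 : ((g 0 0 1 1 0 : Fin 3) : ℕ) = 0 := congrArg Fin.val (c4 1 0 0)
        have c4_010 : ((g 1 0 0 0 0 : Fin 3) : ℕ) = 0 := congrArg Fin.val (c4 0 1 0)
        omega
      · exact c4
      · exfalso
        have c3_001 : ((g 0 1 1 0 0 : Fin 3) : ℕ) = 0 := congrArg Fin.val (c3 0 0 1)
        have c3_100 : ((g 0 0 0 1 1 : Fin 3) : ℕ) = 0 := congrArg Fin.val (c3 1 0 0)
        have c3_010 : ((g 1 0 0 0 0 : Fin 3) : ℕ) = 1 := congrArg Fin.val (c3 0 1 0)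
        have c4_001 : ((g 0 1 0 0 1 : Fin 3) : ℕ) = 0 := congrArg Fin.val (c4 0 0 1)
        have c4_100 : ((g 0 0 1 1 0 : Fin 3) : ℕ) = 0 := congrArg Fin.val (c4 1 0 0)
        have c4_010 : ((g 1 0 0 0 0 : Fin 3) : ℕ) = 1 := congrArg Fin.val (c4 0 1 0)
        omega
      · exfalso
        have c3_001 : ((g 0 1 1 0 0 : Fin 3) : ℕ) = 0 := congrArg Fin.val (c3 0 0 1)
        have c3_100 : ((g 0 0 0 1 1 : Fin 3) : ℕ) = 0 := congrArg Fin.val (c3 1 0 0)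
        have c3_010 : ((g 1 0 0 0 0 : Fin 3) : ℕ) = 1 := congrArg Fin.val (c3 0 1 0)
        have c4_001 : ((g 0 1 0 0 1 : Fin 3) : ℕ) = 1 := congrArg Fin.val (c4 0 0 1)
        have c4_100 : ((g 0 0 1 1 0 : Fin 3) : ℕ) = 0 := congrArg Fin.val (c4 1 0 0)
        have c4_010 : ((g 1 0 0 0 0 : Fin 3) : ℕ) = 0 := congrArg Fin.val (c4 0 1 0)
        omega
      · exact c4
      · exfalso
        have c3_001 : ((g 0 1 1 0 0 : Fin 3) : ℕ) = 1 := congrArg Fin.val (c3 0 0 1)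
        have c3_100 : ((g 0 0 0 1 1 : Fin 3) : ℕ) = 0 := congrArg Fin.val (c3 1 0 0)
        have c3_010 : ((g 1 0 0 0 0 : Fin 3) : ℕ) = 0 := congrArg Fin.val (c3 0 1 0)
        have c4_001 : ((g 0 1 0 0 1 : Fin 3) : ℕ) = 0 := congrArg Fin.val (c4 0 0 1)
        have c4_100 : ((g 0 0 1 1 0 : Fin 3) : ℕ) = 0 := congrArg Fin.val (c4 1 0 0)
        have c4_010 : ((g 1 0 0 0 0 : Fin 3) : ℕ) = 1 := congrArg Fin.val (c4 0 1 0)
        omega
      · exfalso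
        have c3_001 : ((g 0 1 1 0 0 : Fin 3) : ℕ) = 1 := congrArg Fin.val (c3 0 0 1)
        have c3_100 : ((g 0 0 0 1 1 : Fin 3) : ℕ) = 0 := congrArg Fin.val (c3 1 0 0)
        have c3_010 : ((g 1 0 0 0 0 : Fin 3) : ℕ) = 0 := congrArg Fin.val (c3 0 1 0)
        have c4_001 : ((g 0 1 0 0 1 : Fin 3) : ℕ) = 1 := congrArg Fin.val (c4 0 0 1)
        have c4_100 : ((g 0 0 1 1 0 : Fin 3) : ℕ) = 0 := congrArg Fin.val (c4 1 0 0)
        have c4_010 : ((g 1 0 0 0 0 : Fin 3) : ℕ) = 0 := congrArg Fin.val (c4 0 1 0)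
        omega
    have fin := class2_aux g key (fun c e n w s => n) (by simp)
      (by
        intro a
        have k := KA a
        have q1 := congrArg Fin.val (c1 0 0 a)
        have q2 := congrArg Fin.val (c1 a 0 0)
        have q3 := congrArg Fin.val (c2 0 0 a)
        have q4 := congrArg Fin.val (c2 a 0 0)
        simp only [e0, Z0] at k q1 q2 q3 q4
        apply Fin.ext
        try simp only [e0]
        omega)
      (fun a => c1 0 0 a) (fun a => c2 0 0 a) (fun a => c1 a 0 0) (fun a => c2 a 0 0)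
      (fun a b => c1 0 a b) (fun a b => c2 0 a b) (fun a b => c3' 0 a b) (fun a b => c4' 0 a b)
    exact Or.inr (Or.inr (Or.inl fin))
  · -- r l
    have c1_001 : ((g 0 1 0 0 0 : Fin 3) : ℕ) = 1 := congrArg Fin.val (c1 0 0 1)
    have c1_100 : ((g 0 0 0 1 0 : Fin 3) : ℕ) = 0 := congrArg Fin.val (c1 1 0 0)
    have c1_011 : ((g 1 1 1 0 1 : Fin 3) : ℕ) = 1 := congrArg Fin.val (c1 0 1 1)
    have c2_001 : ((g 0 0 1 0 0 : Fin 3) : ℕ) = 0 := congrArg Fin.val (c2 0 0 1)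
    have c2_100 : ((g 0 0 0 0 1 : Fin 3) : ℕ) = 1 := congrArg Fin.val (c2 1 0 0)
    have c2_011 : ((g 1 1 1 1 0 : Fin 3) : ℕ) = 0 := congrArg Fin.val (c2 0 1 1)
    exfalso; omega
  · -- r c
    have c1_001 : ((g 0 1 0 0 0 : Fin 3) : ℕ) = 1 := congrArg Fin.val (c1 0 0 1)
    have c1_100 : ((g 0 0 0 1 0 : Fin 3) : ℕ) = 0 := congrArg Fin.val (c1 1 0 0)
    have c1_011 : ((g 1 1 1 0 1 : Fin 3) : ℕ) = 1 := congrArg Fin.val (c1 0 1 1)
    have c2_001 : ((g 0 0 1 0 0 : Fin 3) : ℕ) = 0 := congrArg Fin.val (c2 0 0 1)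
    have c2_100 : ((g 0 0 0 0 1 : Fin 3) : ℕ) = 0 := congrArg Fin.val (c2 1 0 0)
    have c2_011 : ((g 1 1 1 1 0 : Fin 3) : ℕ) = 1 := congrArg Fin.val (c2 0 1 1)
    have c3' : ∀ l c r, g c r r l l = r := by
      rcases c3 with c3 | c3 | c3 <;> rcases c4 with c4 | c4 | c4
      · exfalso
        have c3_001 : ((g 0 1 1 0 0 : Fin 3) : ℕ) = 0 := congrArg Fin.val (c3 0 0 1)
        have c3_100 : ((g 0 0 0 1 1 : Fin 3) : ℕ) = 1 := congrArg Fin.val (c3 1 0 0)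
        have c3_010 : ((g 1 0 0 0 0 : Fin 3) : ℕ) = 0 := congrArg Fin.val (c3 0 1 0)
        have c4_001 : ((g 0 1 0 0 1 : Fin 3) : ℕ) = 0 := congrArg Fin.val (c4 0 0 1)
        have c4_100 : ((g 0 0 1 1 0 : Fin 3) : ℕ) = 1 := congrArg Fin.val (c4 1 0 0)
        have c4_010 : ((g 1 0 0 0 0 : Fin 3) : ℕ) = 0 := congrArg Fin.val (c4 0 1 0)
        omega
      · exfalso
        have c3_001 : ((g 0 1 1 0 0 : Fin 3) : ℕ) = 0 := congrArg Fin.val (c3 0 0 1)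
        have c3_100 : ((g 0 0 0 1 1 : Fin 3) : ℕ) = 1 := congrArg Fin.val (c3 1 0 0)
        have c3_010 : ((g 1 0 0 0 0 : Fin 3) : ℕ) = 0 := congrArg Fin.val (c3 0 1 0)
        have c4_001 : ((g 0 1 0 0 1 : Fin 3) : ℕ) = 0 := congrArg Fin.val (c4 0 0 1)
        have c4_100 : ((g 0 0 1 1 0 : Fin 3) : ℕ) = 0 := congrArg Fin.val (c4 1 0 0)
        have c4_010 : ((g 1 0 0 0 0 : Fin 3) : ℕ) = 1 := congrArg Fin.val (c4 0 1 0)
        omega
      · exfalso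
        have c3_001 : ((g 0 1 1 0 0 : Fin 3) : ℕ) = 0 := congrArg Fin.val (c3 0 0 1)
        have c3_100 : ((g 0 0 0 1 1 : Fin 3) : ℕ) = 1 := congrArg Fin.val (c3 1 0 0)
        have c3_010 : ((g 1 0 0 0 0 : Fin 3) : ℕ) = 0 := congrArg Fin.val (c3 0 1 0)
        have c4_001 : ((g 0 1 0 0 1 : Fin 3) : ℕ) = 1 := congrArg Fin.val (c4 0 0 1)
        have c4_100 : ((g 0 0 1 1 0 : Fin 3) : ℕ) = 0 := congrArg Fin.val (c4 1 0 0)
        have c4_010 : ((g 1 0 0 0 0 : Fin 3) : ℕ) = 0 := congrArg Fin.val (c4 0 1 0)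
        omega
      · exfalso
        have c3_001 : ((g 0 1 1 0 0 : Fin 3) : ℕ) = 0 := congrArg Fin.val (c3 0 0 1)
        have c3_100 : ((g 0 0 0 1 1 : Fin 3) : ℕ) = 0 := congrArg Fin.val (c3 1 0 0)
        have c3_010 : ((g 1 0 0 0 0 : Fin 3) : ℕ) = 1 := congrArg Fin.val (c3 0 1 0)
        have c4_001 : ((g 0 1 0 0 1 : Fin 3) : ℕ) = 0 := congrArg Fin.val (c4 0 0 1)
        have c4_100 : ((g 0 0 1 1 0 : Fin 3) : ℕ) = 1 := congrArg Fin.val (c4 1 0 0)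
        have c4_010 : ((g 1 0 0 0 0 : Fin 3) : ℕ) = 0 := congrArg Fin.val (c4 0 1 0)
        omega
      · exfalso
        have c3_001 : ((g 0 1 1 0 0 : Fin 3) : ℕ) = 0 := congrArg Fin.val (c3 0 0 1)
        have c3_100 : ((g 0 0 0 1 1 : Fin 3) : ℕ) = 0 := congrArg Fin.val (c3 1 0 0)
        have c3_010 : ((g 1 0 0 0 0 : Fin 3) : ℕ) = 1 := congrArg Fin.val (c3 0 1 0)
        have c4_001 : ((g 0 1 0 0 1 : Fin 3) : ℕ) = 0 := congrArg Fin.val (c4 0 0 1)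
        have c4_100 : ((g 0 0 1 1 0 : Fin 3) : ℕ) = 0 := congrArg Fin.val (c4 1 0 0)
        have c4_010 : ((g 1 0 0 0 0 : Fin 3) : ℕ) = 1 := congrArg Fin.val (c4 0 1 0)
        omega
      · exfalso
        have c3_001 : ((g 0 1 1 0 0 : Fin 3) : ℕ) = 0 := congrArg Fin.val (c3 0 0 1)
        have c3_100 : ((g 0 0 0 1 1 : Fin 3) : ℕ) = 0 := congrArg Fin.val (c3 1 0 0)
        have c3_010 : ((g 1 0 0 0 0 : Fin 3) : ℕ) = 1 := congrArg Fin.val (c3 0 1 0)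
        have c4_001 : ((g 0 1 0 0 1 : Fin 3) : ℕ) = 1 := congrArg Fin.val (c4 0 0 1)
        have c4_100 : ((g 0 0 1 1 0 : Fin 3) : ℕ) = 0 := congrArg Fin.val (c4 1 0 0)
        have c4_010 : ((g 1 0 0 0 0 : Fin 3) : ℕ) = 0 := congrArg Fin.val (c4 0 1 0)
        omega
      · exact c3
      · exact c3
      · exact c3
    have c4' : ∀ l c r, g c r l l r = r := by
      rcases c3 with c3 | c3 | c3 <;> rcases c4 with c4 | c4 | c4
      · exfalso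
        have c3_001 : ((g 0 1 1 0 0 : Fin 3) : ℕ) = 0 := congrArg Fin.val (c3 0 0 1)
        have c3_100 : ((g 0 0 0 1 1 : Fin 3) : ℕ) = 1 := congrArg Fin.val (c3 1 0 0)
        have c3_010 : ((g 1 0 0 0 0 : Fin 3) : ℕ) = 0 := congrArg Fin.val (c3 0 1 0)
        have c4_001 : ((g 0 1 0 0 1 : Fin 3) : ℕ) = 0 := congrArg Fin.val (c4 0 0 1)
        have c4_100 : ((g 0 0 1 1 0 : Fin 3) : ℕ) = 1 := congrArg Fin.val (c4 1 0 0)
        have c4_010 : ((g 1 0 0 0 0 : Fin 3) : ℕ) = 0 := congrArg Fin.val (c4 0 1 0)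
        omega
      · exfalso
        have c3_001 : ((g 0 1 1 0 0 : Fin 3) : ℕ) = 0 := congrArg Fin.val (c3 0 0 1)
        have c3_100 : ((g 0 0 0 1 1 : Fin 3) : ℕ) = 1 := congrArg Fin.val (c3 1 0 0)
        have c3_010 : ((g 1 0 0 0 0 : Fin 3) : ℕ) = 0 := congrArg Fin.val (c3 0 1 0)
        have c4_001 : ((g 0 1 0 0 1 : Fin 3) : ℕ) = 0 := congrArg Fin.val (c4 0 0 1)
        have c4_100 : ((g 0 0 1 1 0 : Fin 3) : ℕ) = 0 := congrArg Fin.val (c4 1 0 0)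
        have c4_010 : ((g 1 0 0 0 0 : Fin 3) : ℕ) = 1 := congrArg Fin.val (c4 0 1 0)
        omega
      · exact c4
      · exfalso
        have c3_001 : ((g 0 1 1 0 0 : Fin 3) : ℕ) = 0 := congrArg Fin.val (c3 0 0 1)
        have c3_100 : ((g 0 0 0 1 1 : Fin 3) : ℕ) = 0 := congrArg Fin.val (c3 1 0 0)
        have c3_010 : ((g 1 0 0 0 0 : Fin 3) : ℕ) = 1 := congrArg Fin.val (c3 0 1 0)
        have c4_001 : ((g 0 1 0 0 1 : Fin 3) : ℕ) = 0 := congrArg Fin.val (c4 0 0 1)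
        have c4_100 : ((g 0 0 1 1 0 : Fin 3) : ℕ) = 1 := congrArg Fin.val (c4 1 0 0)
        have c4_010 : ((g 1 0 0 0 0 : Fin 3) : ℕ) = 0 := congrArg Fin.val (c4 0 1 0)
        omega
      · exfalso
        have c3_001 : ((g 0 1 1 0 0 : Fin 3) : ℕ) = 0 := congrArg Fin.val (c3 0 0 1)
        have c3_100 : ((g 0 0 0 1 1 : Fin 3) : ℕ) = 0 := congrArg Fin.val (c3 1 0 0)
        have c3_010 : ((g 1 0 0 0 0 : Fin 3) : ℕ) = 1 := congrArg Fin.val (c3 0 1 0)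
        have c4_001 : ((g 0 1 0 0 1 : Fin 3) : ℕ) = 0 := congrArg Fin.val (c4 0 0 1)
        have c4_100 : ((g 0 0 1 1 0 : Fin 3) : ℕ) = 0 := congrArg Fin.val (c4 1 0 0)
        have c4_010 : ((g 1 0 0 0 0 : Fin 3) : ℕ) = 1 := congrArg Fin.val (c4 0 1 0)
        omega
      · exact c4
      · exfalso
        have c3_001 : ((g 0 1 1 0 0 : Fin 3) : ℕ) = 1 := congrArg Fin.val (c3 0 0 1)
        have c3_100 : ((g 0 0 0 1 1 : Fin 3) : ℕ) = 0 := congrArg Fin.val (c3 1 0 0)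
        have c3_010 : ((g 1 0 0 0 0 : Fin 3) : ℕ) = 0 := congrArg Fin.val (c3 0 1 0)
        have c4_001 : ((g 0 1 0 0 1 : Fin 3) : ℕ) = 0 := congrArg Fin.val (c4 0 0 1)
        have c4_100 : ((g 0 0 1 1 0 : Fin 3) : ℕ) = 1 := congrArg Fin.val (c4 1 0 0)
        have c4_010 : ((g 1 0 0 0 0 : Fin 3) : ℕ) = 0 := congrArg Fin.val (c4 0 1 0)
        omega
      · exfalso
        have c3_001 : ((g 0 1 1 0 0 : Fin 3) : ℕ) = 1 := congrArg Fin.val (c3 0 0 1)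
        have c3_100 : ((g 0 0 0 1 1 : Fin 3) : ℕ) = 0 := congrArg Fin.val (c3 1 0 0)
        have c3_010 : ((g 1 0 0 0 0 : Fin 3) : ℕ) = 0 := congrArg Fin.val (c3 0 1 0)
        have c4_001 : ((g 0 1 0 0 1 : Fin 3) : ℕ) = 0 := congrArg Fin.val (c4 0 0 1)
        have c4_100 : ((g 0 0 1 1 0 : Fin 3) : ℕ) = 0 := congrArg Fin.val (c4 1 0 0)
        have c4_010 : ((g 1 0 0 0 0 : Fin 3) : ℕ) = 1 := congrArg Fin.val (c4 0 1 0)
        omega
      · exact c4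
    have fin := class2_aux g key (fun c e n w s => e) (by simp)
      (by
        intro a
        have k := KA a
        have q1 := congrArg Fin.val (c1 0 0 a)
        have q2 := congrArg Fin.val (c1 a 0 0)
        have q3 := congrArg Fin.val (c2 0 0 a)
        have q4 := congrArg Fin.val (c2 a 0 0)
        simp only [e0, Z0] at k q1 q2 q3 q4
        apply Fin.ext
        try simp only [e0]
        omega)
      (fun a => c1 0 0 a) (fun a => c2 0 0 a) (fun a => c1 a 0 0) (fun a => c2 a 0 0)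
      (fun a b => c1 0 a b) (fun a b => c2 0 a b) (fun a b => c3' 0 a b) (fun a b => c4' 0 a b)
    exact Or.inr (Or.inl fin)
  · -- r r
    have c1_001 : ((g 0 1 0 0 0 : Fin 3) : ℕ) = 1 := congrArg Fin.val (c1 0 0 1)
    have c1_100 : ((g 0 0 0 1 0 : Fin 3) : ℕ) = 0 := congrArg Fin.val (c1 1 0 0)
    have c1_011 : ((g 1 1 1 0 1 : Fin 3) : ℕ) = 1 := congrArg Fin.val (c1 0 1 1)
    have c2_001 : ((g 0 0 1 0 0 : Fin 3) : ℕ) = 1 := congrArg Fin.val (c2 0 0 1)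
    have c2_100 : ((g 0 0 0 0 1 : Fin 3) : ℕ) = 0 := congrArg Fin.val (c2 1 0 0)
    have c2_011 : ((g 1 1 1 1 0 : Fin 3) : ℕ) = 1 := congrArg Fin.val (c2 0 1 1)
    exfalso; omega


end Pool.Agent.L5helper99.NCCA
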