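import Pool.Agent.L5helper99.NCCA.Defs
import Pool.Agent.L5helper99.NCCA.TwoDim

set_option autoImplicit false

namespace Pool.Agent.L5helper99.NCCA

/-- The relative position on the torus. -/
def offn {d : ℕ} (n : ℕ) (u : Nbr d) : Fin d → ZMod n := fun i => ((off u i : ℤ) : ZMod n)

lemma torus_sum {d : ℕ} (n : ℕ) [NeZero n] (f : (Nbr d → Fin 3) → Fin 3) (hN : NumberConserving f)
    (X : (Fin d → ZMod n) → Fin 3) :
    ∑ v, ((f (fun u => X (v + offn n u)) : Fin 3) : ℕ) = ∑ v, ((X v : Fin 3) : ℕ) := by
  have h := hN (fun _ => n) (fun _ => NeZero.pos n) (fun v => X (fun i => ((v i : ℤ) : ZMod n))) (by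
    intro v i
    congr 1
    funext j
    by_cases hj : j = i
    · subst hj; simp
    · simp [Pi.single_eq_of_ne hj])
  have hb : Function.Bijective (fun (v : ∀ _ : Fin d, Fin n) (i : Fin d) => (((v i : ℕ)) : ZMod n)) := by
    constructor
    · intro v w hvw
      funext i
      have := congr_fun hvw i
      simp only at this
      apply Fin.ext
      rw [ZMod.natCast_eq_natCast_iff'] at this
      rwa [Nat.mod_eq_of_lt (v i).2, Nat.mod_eq_of_lt (w i).2] at this
    · intro w
      refine ⟨fun i => ⟨(w i).val, ZMod.val_lt _⟩, ?_⟩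
      funext i
      simp
  have s1 : ∑ v : (∀ _ : Fin d, Fin n), ((X (fun i => ((v i : ℕ) : ZMod n)) : Fin 3) : ℕ) = ∑ w, ((X w : Fin 3) : ℕ) :=
    Fintype.sum_bijective _ hb _ _ (fun v => rfl)
  have s2 : ∑ v : (∀ _ : Fin d, Fin n), ((f (fun u => X ((fun i => ((v i : ℕ) : ZMod n)) + offn n u)) : Fin 3) : ℕ)
      = ∑ w, ((f (fun u => X (w + offn n u)) : Fin 3) : ℕ) :=
    Fintype.sum_bijective _ hb _ _ (fun v => rfl)
  rw [← s1, ← s2]
  simp only [globalMap] at h
  have e1 : ∀ v : (∀ _ : Fin d, Fin n), (fun u : Nbr d => X (fun i => (((((fun i => ((v i : ℕ) : ℤ)) : Fin d → ℤ) + off u) i : ℤ) : ZMod n)))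
      = (fun u => X ((fun i => ((v i : ℕ) : ZMod n)) + offn n u)) := by
    intro v
    funext u
    congr 1
    funext i
    simp [offn]
  simp only [e1] at h
  rw [h]
  apply Finset.sum_congr rfl
  intro v _
  congr 2
  funext i
  simp

lemma torus_inj {d : ℕ} (n : ℕ) [NeZero n] (f : (Nbr d → Fin 3) → Fin 3)
    (hR : Function.Injective (globalMap f)) (X X' : (Fin d → ZMod n) → Fin 3)
    (h : ∀ v, f (fun u => X (v + offn n u)) = f (fun u => X' (v + offn n u))) : X = X' := by
  have hx : (fun v : Fin d → ℤ => X (fun i => ((v i : ℤ) : ZMod n))) = (fun v : Fin d → ℤ => X' (fun i => ((v i : ℤ) : ZMod n))) := by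
    apply hR
    funext v
    have := h (fun i => ((v i : ℤ) : ZMod n))
    simp only [globalMap]
    have e : ∀ Y : (Fin d → ZMod n) → Fin 3, (fun u : Nbr d => Y (fun i => ((((v + off u) i : ℤ)) : ZMod n)))
      = (fun u => Y ((fun i => ((v i : ℤ) : ZMod n)) + offn n u)) := by
      intro Y
      funext u
      congr 1
      funext i
      simp [offn]
    rw [e X, e X']
    exact this
  funext w
  have := congr_fun hx (fun i => ((w i).val : ℤ))
  simpa using this

/-- sum over the fibres of a surjective homomorphism -/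
lemma sum_hom {A B : Type*} [AddCommGroup A] [AddCommGroup B] [Fintype A] [Fintype B]
    (π : A →+ B) (hπ : Function.Surjective π) (h h' : B → ℕ)
    (hs : ∑ a, h (π a) = ∑ a, h' (π a)) : ∑ b, h b = ∑ b, h' b := by
  classical
  have key : ∀ k : B → ℕ, ∑ a, k (π a) = (Finset.univ.filter (fun a => π a = 0)).card * ∑ b, k b := by
    intro k
    rw [Finset.mul_sum, ← Finset.sum_fiberwise Finset.univ (fun a => π a) (fun a => k (π a))]
    apply Finset.sum_congr rfl
    intro b _
    have : ∑ a ∈ Finset.univ.filter (fun a => π a = b), k (π a) = ∑ a ∈ Finset.univ.filter (fun a => π a = b), k b := by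
      apply Finset.sum_congr rfl
      intro a ha
      rw [(Finset.mem_filter.mp ha).2]
    rw [this, Finset.sum_const, smul_eq_mul]
    congr 1
    obtain ⟨a0, ha0⟩ := hπ b
    apply Finset.card_bij (fun a _ => a - a0)
    · intro a ha
      simp only [Finset.mem_filter, Finset.mem_univ, true_and] at ha ⊢
      rw [map_sub, ha, ha0, sub_self]
    · intro a _ a' _ haa
      exact sub_left_injective haa
    · intro a ha
      simp only [Finset.mem_filter, Finset.mem_univ, true_and] at ha
      refine ⟨a + a0, ?_, by simp⟩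
      simp [ha, ha0]
  rw [key, key] at hs
  have hpos : 0 < (Finset.univ.filter (fun a => π a = 0)).card := by
    apply Finset.card_pos.mpr
    exact ⟨0, by simp⟩
  exact Nat.eq_of_mul_eq_mul_left hpos hs

/-- The linear functional with coefficients `φ` at a neighbour. -/
def stp {d : ℕ} (φ : Fin d → ℤ) : Nbr d → ℤ
  | none => 0
  | some (i, b) => if b then φ i else - φ i

/-- The homomorphism on the torus. -/
def pih {d : ℕ} (n : ℕ) (φ : Fin d → ℤ) : (Fin d → ZMod n) →+ ZMod n where
  toFun v := ∑ i, (φ i : ZMod n) * v i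
  map_zero' := by simp
  map_add' v w := by simp [mul_add, Finset.sum_add_distrib]

lemma pih_offn {d : ℕ} (n : ℕ) (φ : Fin d → ℤ) (u : Nbr d) : pih n φ (offn n u) = ((stp φ u : ℤ) : ZMod n) := by
  rcases u with _ | ⟨i, b⟩
  · simp [pih, offn, off, stp]
  · simp only [pih, offn, off, stp, AddMonoidHom.coe_mk, ZeroHom.coe_mk]
    rw [Finset.sum_eq_single i]
    · cases b <;> simp
    · intro j _ hj
      simp [Pi.single_eq_of_ne hj]
    · simp

lemma pih_surj {d : ℕ} (n : ℕ) (φ : Fin d → ℤ) (h1 : ∀ i, φ i = 0 ∨ φ i = 1 ∨ φ i = -1) (h2 : ∃ i, φ i ≠ 0) :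
    Function.Surjective (pih n φ) := by
  obtain ⟨i, hi⟩ := h2
  intro z
  refine ⟨Pi.single i ((φ i : ZMod n) * z), ?_⟩
  simp only [pih, AddMonoidHom.coe_mk, ZeroHom.coe_mk]
  rw [Finset.sum_eq_single i]
  · rcases h1 i with h | h | h
    · exact absurd h hi
    · simp [h]
    · simp [h]
  · intro j _ hj
    simp [Pi.single_eq_of_ne hj]
  · simp

/-- selection of a value -/
def sel (l c r : Fin 3) (z : ℤ) : Fin 3 := if z = 0 then c else if z = 1 then r else l

lemma stp_cases {d : ℕ} (φ : Fin d → ℤ) (h1 : ∀ i, φ i = 0 ∨ φ i = 1 ∨ φ i = -1) (u : Nbr d) :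
    stp φ u = 0 ∨ stp φ u = 1 ∨ stp φ u = -1 := by
  rcases u with _ | ⟨i, b⟩
  · left; rfl
  · rcases h1 i with h | h | h <;> cases b <;> simp [stp, h]

lemma sel_eq {n : ℕ} (y : ZMod n → Fin 3) (a : ZMod n) (z : ℤ) (hz : z = 0 ∨ z = 1 ∨ z = -1) :
    y (a + (z : ZMod n)) = sel (y (a - 1)) (y a) (y (a + 1)) z := by
  rcases hz with h | h | h
  · subst h; simp [sel]
  · subst h; simp [sel]
  · subst h; simp [sel, sub_eq_add_neg]

theorem collapse1 {d : ℕ} (f : (Nbr d → Fin 3) → Fin 3) (hN : NumberConserving f)
    (hR : Function.Injective (globalMap f)) (φ : Fin d → ℤ)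
    (h1 : ∀ i, φ i = 0 ∨ φ i = 1 ∨ φ i = -1) (h2 : ∃ i, φ i ≠ 0) :
    Proj (fun l c r => f (fun u => sel l c r (stp φ u))) := by
  have pat : ∀ (n : ℕ) (y : ZMod n → Fin 3) (v : Fin d → ZMod n),
      (fun u => y (pih n φ (v + offn n u))) = fun u => sel (y (pih n φ v - 1)) (y (pih n φ v)) (y (pih n φ v + 1)) (stp φ u) := by
    intro n y v
    funext u
    rw [map_add, pih_offn]
    exact sel_eq y _ _ (stp_cases φ h1 u)
  have inj : ∀ (n : ℕ) [NeZero n] (y y' : ZMod n → Fin 3),
      (∀ i, f (fun u => sel (y (i - 1)) (y i) (y (i + 1)) (stp φ u)) = f (fun u => sel (y' (i - 1)) (y' i) (y' (i + 1)) (stp φ u))) →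
      y = y' := by
    intro n _ y y' h
    have := torus_inj n f hR (fun v => y (pih n φ v)) (fun v => y' (pih n φ v)) (by
      intro v
      rw [pat, pat]
      exact h _)
    funext z
    obtain ⟨v, rfl⟩ := pih_surj n φ h1 h2 z
    exact congr_fun this v
  apply class1
  · intro y
    apply sum_hom (pih 5 φ) (pih_surj 5 φ h1 h2)
    have := torus_sum 5 f hN (fun v => y (pih 5 φ v))
    simp only [pat] at this
    exact this
  · exact inj 2
  · exact inj 3
  · exact inj 4

/-- selection of a value, two directions -/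
def sel2 (c e n w s : Fin 3) (a b : ℤ) : Fin 3 :=
  if a = 1 then e else if a = -1 then w else if b = 1 then n else if b = -1 then s else c

lemma pair_cases {d : ℕ} (φ ψ : Fin d → ℤ)
    (h : ∀ i, (φ i = 0 ∧ ψ i = 0) ∨ (φ i = 1 ∧ ψ i = 0) ∨ (φ i = -1 ∧ ψ i = 0) ∨ (φ i = 0 ∧ ψ i = 1) ∨ (φ i = 0 ∧ ψ i = -1))
    (u : Nbr d) : (stp φ u = 0 ∧ stp ψ u = 0) ∨ (stp φ u = 1 ∧ stp ψ u = 0) ∨ (stp φ u = -1 ∧ stp ψ u = 0)
      ∨ (stp φ u = 0 ∧ stp ψ u = 1) ∨ (stp φ u = 0 ∧ stp ψ u = -1) := by
  rcases u with _ | ⟨i, b⟩
  · left; exact ⟨rfl, rfl⟩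
  · rcases h i with h | h | h | h | h <;> cases b <;> simp [stp, h.1, h.2]

lemma stp_add {d : ℕ} (φ ψ : Fin d → ℤ) (u : Nbr d) : stp (φ + ψ) u = stp φ u + stp ψ u := by
  rcases u with _ | ⟨i, b⟩
  · rfl
  · cases b
    · simp [stp]; ring
    · simp [stp]

lemma stp_sub {d : ℕ} (φ ψ : Fin d → ℤ) (u : Nbr d) : stp (φ - ψ) u = stp φ u - stp ψ u := by
  rcases u with _ | ⟨i, b⟩
  · rfl
  · cases b
    · simp [stp]; ring
    · simp [stp]

theorem collapse2 {d : ℕ} (f : (Nbr d → Fin 3) → Fin 3) (hN : NumberConserving f)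
    (hR : Function.Injective (globalMap f)) (φ ψ : Fin d → ℤ)
    (h : ∀ i, (φ i = 0 ∧ ψ i = 0) ∨ (φ i = 1 ∧ ψ i = 0) ∨ (φ i = -1 ∧ ψ i = 0) ∨ (φ i = 0 ∧ ψ i = 1) ∨ (φ i = 0 ∧ ψ i = -1))
    (h1 : ∃ i, φ i ≠ 0) (h2 : ∃ i, ψ i ≠ 0) :
    (∀ c e n w s, f (fun u => sel2 c e n w s (stp φ u) (stp ψ u)) = c) ∨
    (∀ c e n w s, f (fun u => sel2 c e n w s (stp φ u) (stp ψ u)) = e) ∨
    (∀ c e n w s, f (fun u => sel2 c e n w s (stp φ u) (stp ψ u)) = n) ∨
    (∀ c e n w s, f (fun u => sel2 c e n w s (stp φ u) (stp ψ u)) = w) ∨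
    (∀ c e n w s, f (fun u => sel2 c e n w s (stp φ u) (stp ψ u)) = s) := by
  apply class2 (fun c e n w s => f (fun u => sel2 c e n w s (stp φ u) (stp ψ u)))
  · intro Y
    have hφ : ∀ i, φ i = 0 ∨ φ i = 1 ∨ φ i = -1 := by
      intro i; rcases h i with h | h | h | h | h <;> simp [h.1]
    have hψ : ∀ i, ψ i = 0 ∨ ψ i = 1 ∨ ψ i = -1 := by
      intro i; rcases h i with h | h | h | h | h <;> simp [h.2]
    have hsurj : Function.Surjective ((pih 5 φ).prod (pih 5 ψ)) := by
      rintro ⟨a, b⟩
      obtain ⟨i, hi⟩ := h1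
      obtain ⟨j, hj⟩ := h2
      have hψi : ψ i = 0 := by rcases h i with h | h | h | h | h <;> first | exact h.2 | exact absurd h.1 hi
      have hφj : φ j = 0 := by rcases h j with h | h | h | h | h <;> first | exact h.1 | exact absurd h.2 hj
      have key : ∀ (χ : Fin d → ℤ) (k : Fin d) (z : ZMod 5), pih 5 χ (Pi.single k z) = (χ k : ZMod 5) * z := by
        intro χ k z
        simp only [pih, AddMonoidHom.coe_mk, ZeroHom.coe_mk]
        rw [Finset.sum_eq_single k]
        · simp
        · intro j _ hj
          simp [Pi.single_eq_of_ne hj]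
        · simp
      refine ⟨Pi.single i ((φ i : ZMod 5) * a) + Pi.single j ((ψ j : ZMod 5) * b), ?_⟩
      rw [AddMonoidHom.prod_apply, map_add, map_add, key, key, key, key, hψi, hφj]
      have q1 : ((φ i : ℤ) : ZMod 5) * ((φ i : ZMod 5) * a) = a := by
        rcases hφ i with h | h | h
        · exact absurd h hi
        · simp [h]
        · simp [h]
      have q2 : ((ψ j : ℤ) : ZMod 5) * ((ψ j : ZMod 5) * b) = b := by
        rcases hψ j with h | h | h
        · exact absurd h hj
        · simp [h]
        · simp [h]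
      rw [q1, q2]
      simp
    have hs := torus_sum 5 f hN (fun v => Y (pih 5 φ v) (pih 5 ψ v))
    have pat : ∀ v : Fin d → ZMod 5, (fun u => Y (pih 5 φ (v + offn 5 u)) (pih 5 ψ (v + offn 5 u)))
        = fun u => sel2 (Y (pih 5 φ v) (pih 5 ψ v)) (Y (pih 5 φ v + 1) (pih 5 ψ v)) (Y (pih 5 φ v) (pih 5 ψ v + 1))
          (Y (pih 5 φ v - 1) (pih 5 ψ v)) (Y (pih 5 φ v) (pih 5 ψ v - 1)) (stp φ u) (stp ψ u) := by
      intro v
      funext u
      rw [map_add, map_add, pih_offn, pih_offn]
      rcases pair_cases φ ψ h u with h | h | h | h | h <;> rw [h.1, h.2] <;> simp [sel2, sub_eq_add_neg]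
    simp only [pat] at hs
    have := sum_hom ((pih 5 φ).prod (pih 5 ψ)) hsurj
      (fun p => ((f (fun u => sel2 (Y p.1 p.2) (Y (p.1 + 1) p.2) (Y p.1 (p.2 + 1)) (Y (p.1 - 1) p.2) (Y p.1 (p.2 - 1)) (stp φ u) (stp ψ u)) : Fin 3) : ℕ))
      (fun p => ((Y p.1 p.2 : Fin 3) : ℕ)) hs
    rw [Fintype.sum_prod_type, Fintype.sum_prod_type] at this
    exact this
  · have := collapse1 f hN hR φ (by intro i; rcases h i with h | h | h | h | h <;> simp [h.1]) h1
    have e : (fun l c r => f (fun u => sel2 c r c l c (stp φ u) (stp ψ u))) = fun l c r => f (fun u => sel l c r (stp φ u)) := by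
      funext l c r
      congr 1
      funext u
      rcases pair_cases φ ψ h u with h | h | h | h | h <;> rw [h.1, h.2] <;> simp [sel2, sel]
    rw [e]; exact this
  · have := collapse1 f hN hR ψ (by intro i; rcases h i with h | h | h | h | h <;> simp [h.2]) h2
    have e : (fun l c r => f (fun u => sel2 c c r c l (stp φ u) (stp ψ u))) = fun l c r => f (fun u => sel l c r (stp ψ u)) := by
      funext l c r
      congr 1
      funext u
      rcases pair_cases φ ψ h u with h | h | h | h | h <;> rw [h.1, h.2] <;> simp [sel2, sel]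
    rw [e]; exact this
  · have := collapse1 f hN hR (φ + ψ) (by intro i; rcases h i with h | h | h | h | h <;> simp [h.1, h.2]) (by
      obtain ⟨i, hi⟩ := h1
      refine ⟨i, ?_⟩
      rcases h i with h | h | h | h | h
      · exact absurd h.1 hi
      · simp [h.1, h.2]
      · simp [h.1, h.2]
      · exact absurd h.1 hi
      · exact absurd h.1 hi)
    have e : (fun l c r => f (fun u => sel2 c r r l l (stp φ u) (stp ψ u))) = fun l c r => f (fun u => sel l c r (stp (φ + ψ) u)) := by
      funext l c r
      congr 1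
      funext u
      rw [stp_add]
      rcases pair_cases φ ψ h u with h | h | h | h | h <;> rw [h.1, h.2] <;> simp [sel2, sel]
    rw [e]; exact this
  · have := collapse1 f hN hR (φ - ψ) (by intro i; rcases h i with h | h | h | h | h <;> simp [h.1, h.2]) (by
      obtain ⟨i, hi⟩ := h1
      refine ⟨i, ?_⟩
      rcases h i with h | h | h | h | h
      · exact absurd h.1 hi
      · simp [h.1, h.2]
      · simp [h.1, h.2]
      · exact absurd h.1 hi
      · exact absurd h.1 hi)
    have e : (fun l c r => f (fun u => sel2 c r l l r (stp φ u) (stp ψ u))) = fun l c r => f (fun u => sel l c r (stp (φ - ψ) u)) := by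
      funext l c r
      congr 1
      funext u
      rw [stp_sub]
      rcases pair_cases φ ψ h u with h | h | h | h | h <;> rw [h.1, h.2] <;> simp [sel2, sel]
    rw [e]; exact this


lemma type1 {d : ℕ} (f : (Nbr d → Fin 3) → Fin 3) (hN : NumberConserving f)
    (hR : Function.Injective (globalMap f)) (i : Fin d) :
    (∃ u : Nbr d, (u = none ∨ ∃ b, u = some (i, b)) ∧
      ∀ x : Nbr d → Fin 3, (∀ k b, k ≠ i → x (some (k, b)) = 0) → f x = x u) ∨
    (∀ x : Nbr d → Fin 3, (∀ k b, k ≠ i → x (some (k, b)) = 0) → f x = 0) := by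
  by_cases hd : ∃ j : Fin d, j ≠ i
  · obtain ⟨j, hj⟩ := hd
    have H := collapse2 f hN hR (fun k => if k = i then 1 else 0) (fun k => if k = i then 0 else 1)
      (by intro k; by_cases hk : k = i <;> simp [hk]) ⟨i, by simp⟩ ⟨j, by simp [hj]⟩
    have pat : ∀ x : Nbr d → Fin 3, (∀ k b, k ≠ i → x (some (k, b)) = 0) →
        (fun u => sel2 (x none) (x (some (i, true))) 0 (x (some (i, false))) 0
          (stp (fun k => if k = i then 1 else 0) u) (stp (fun k => if k = i then 0 else 1) u)) = x := by
      intro x hx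
      funext u
      rcases u with _ | ⟨k, b⟩
      · simp [stp, sel2]
      · by_cases hk : k = i
        · subst hk; cases b <;> simp [stp, sel2]
        · rw [hx k b hk]
          cases b <;> simp [stp, sel2, hk]
    rcases H with H | H | H | H | H
    · left
      refine ⟨none, Or.inl rfl, ?_⟩
      intro x hx
      have := H (x none) (x (some (i, true))) 0 (x (some (i, false))) 0
      rwa [pat x hx] at this
    · left
      refine ⟨some (i, true), Or.inr ⟨true, rfl⟩, ?_⟩
      intro x hx
      have := H (x none) (x (some (i, true))) 0 (x (some (i, false))) 0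
      rwa [pat x hx] at this
    · right
      intro x hx
      have := H (x none) (x (some (i, true))) 0 (x (some (i, false))) 0
      rwa [pat x hx] at this
    · left
      refine ⟨some (i, false), Or.inr ⟨false, rfl⟩, ?_⟩
      intro x hx
      have := H (x none) (x (some (i, true))) 0 (x (some (i, false))) 0
      rwa [pat x hx] at this
    · right
      intro x hx
      have := H (x none) (x (some (i, true))) 0 (x (some (i, false))) 0
      rwa [pat x hx] at this
  · push Not at hd
    have H := collapse1 f hN hR (fun _ => 1) (by intro i; simp) ⟨i, by simp⟩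
    have pat : ∀ x : Nbr d → Fin 3,
        (fun u => sel (x (some (i, false))) (x none) (x (some (i, true))) (stp (fun _ => 1) u)) = x := by
      intro x
      funext u
      rcases u with _ | ⟨k, b⟩
      · simp [stp, sel]
      · have hk := hd k
        subst hk
        cases b <;> simp [stp, sel]
    left
    rcases H with H | H | H
    · refine ⟨some (i, false), Or.inr ⟨false, rfl⟩, ?_⟩
      intro x _
      have := H (x (some (i, false))) (x none) (x (some (i, true)))
      simp only [pat x] at this
      exact this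
    · refine ⟨none, Or.inl rfl, ?_⟩
      intro x _
      have := H (x (some (i, false))) (x none) (x (some (i, true)))
      simp only [pat x] at this
      exact this
    · refine ⟨some (i, true), Or.inr ⟨true, rfl⟩, ?_⟩
      intro x _
      have := H (x (some (i, false))) (x none) (x (some (i, true)))
      simp only [pat x] at this
      exact this

lemma type2 {d : ℕ} (f : (Nbr d → Fin 3) → Fin 3) (hN : NumberConserving f)
    (hR : Function.Injective (globalMap f)) (i j : Fin d) (hij : i ≠ j) :
    (∃ u : Nbr d, (∃ b, u = some (i, b) ∨ u = some (j, b)) ∧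
      ∀ x : Nbr d → Fin 3, x none = 0 → (∀ k b, k ≠ i → k ≠ j → x (some (k, b)) = 0) → f x = x u) ∨
    (∀ x : Nbr d → Fin 3, x none = 0 → (∀ k b, k ≠ i → k ≠ j → x (some (k, b)) = 0) → f x = 0) := by
  have hji : j ≠ i := hij.symm
  have H := collapse2 f hN hR (fun k => if k = i then 1 else 0) (fun k => if k = j then 1 else 0)
    (by
      intro k
      by_cases hk : k = i
      · subst hk; simp [hij]
      · by_cases hk' : k = j
        · subst hk'; simp [hk]
        · simp [hk, hk']) ⟨i, by simp⟩ ⟨j, by simp⟩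
  have pat : ∀ x : Nbr d → Fin 3, x none = 0 → (∀ k b, k ≠ i → k ≠ j → x (some (k, b)) = 0) →
      (fun u => sel2 0 (x (some (i, true))) (x (some (j, true))) (x (some (i, false))) (x (some (j, false)))
        (stp (fun k => if k = i then 1 else 0) u) (stp (fun k => if k = j then 1 else 0) u)) = x := by
    intro x hx0 hx
    funext u
    rcases u with _ | ⟨k, b⟩
    · simp [stp, sel2, hx0]
    · by_cases hk : k = i
      · subst hk; cases b <;> simp [stp, sel2]
      · by_cases hk' : k = j
        · subst hk'; cases b <;> simp [stp, sel2, hk]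
        · rw [hx k b hk hk']
          cases b <;> simp [stp, sel2, hk, hk']
  rcases H with H | H | H | H | H
  · right
    intro x hx0 hx
    have := H 0 (x (some (i, true))) (x (some (j, true))) (x (some (i, false))) (x (some (j, false)))
    rwa [pat x hx0 hx] at this
  · left
    refine ⟨some (i, true), ⟨true, Or.inl rfl⟩, ?_⟩
    intro x hx0 hx
    have := H 0 (x (some (i, true))) (x (some (j, true))) (x (some (i, false))) (x (some (j, false)))
    rwa [pat x hx0 hx] at this
  · left
    refine ⟨some (j, true), ⟨true, Or.inr rfl⟩, ?_⟩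
    intro x hx0 hx
    have := H 0 (x (some (i, true))) (x (some (j, true))) (x (some (i, false))) (x (some (j, false)))
    rwa [pat x hx0 hx] at this
  · left
    refine ⟨some (i, false), ⟨false, Or.inl rfl⟩, ?_⟩
    intro x hx0 hx
    have := H 0 (x (some (i, true))) (x (some (j, true))) (x (some (i, false))) (x (some (j, false)))
    rwa [pat x hx0 hx] at this
  · left
    refine ⟨some (j, false), ⟨false, Or.inr rfl⟩, ?_⟩
    intro x hx0 hx
    have := H 0 (x (some (i, true))) (x (some (j, true))) (x (some (i, false))) (x (some (j, false)))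
    rwa [pat x hx0 hx] at this

/-- one particle of state one -/
def single {d : ℕ} (u : Nbr d) : Nbr d → Fin 3 := fun v => if v = u then 1 else 0

lemma uniq {d : ℕ} (f : (Nbr d → Fin 3) → Fin 3) (hN : NumberConserving f)
    (hR : Function.Injective (globalMap f)) (u v : Nbr d) (hu : f (single u) = 1) (hv : f (single v) = 1) :
    u = v := by
  have aux1 : ∀ i : Fin d, (u = none ∨ ∃ b, u = some (i, b)) → (v = none ∨ ∃ b, v = some (i, b)) → u = v := by
    intro i h1 h2
    have su : ∀ k b, k ≠ i → single u (some (k, b)) = 0 := by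
      intro k b hk
      rcases h1 with h | ⟨b', h⟩ <;> subst h <;> simp [single, hk]
    have sv : ∀ k b, k ≠ i → single v (some (k, b)) = 0 := by
      intro k b hk
      rcases h2 with h | ⟨b', h⟩ <;> subst h <;> simp [single, hk]
    rcases type1 f hN hR i with ⟨w, _, hw⟩ | h0
    · have q1 := hw _ su
      have q2 := hw _ sv
      rw [hu] at q1
      rw [hv] at q2
      simp only [single] at q1 q2
      have e1 : w = u := by by_contra h; simp [h] at q1
      have e2 : w = v := by by_contra h; simp [h] at q2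
      rw [← e1, ← e2]
    · have := h0 _ su
      rw [hu] at this
      exact absurd this (by decide)
  have aux2 : ∀ i j : Fin d, i ≠ j → (∃ b, u = some (i, b)) → (∃ b, v = some (j, b)) → u = v := by
    rintro i j hij ⟨b1, h1⟩ ⟨b2, h2⟩
    have su : ∀ k b, k ≠ i → k ≠ j → single u (some (k, b)) = 0 := by
      intro k b hk _
      subst h1; simp [single, hk]
    have sv : ∀ k b, k ≠ i → k ≠ j → single v (some (k, b)) = 0 := by
      intro k b _ hk
      subst h2; simp [single, hk]
    rcases type2 f hN hR i j hij with ⟨w, _, hw⟩ | h0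
    · have q1 := hw _ (by subst h1; simp [single]) su
      have q2 := hw _ (by subst h2; simp [single]) sv
      rw [hu] at q1
      rw [hv] at q2
      simp only [single] at q1 q2
      have e1 : w = u := by by_contra h; simp [h] at q1
      have e2 : w = v := by by_contra h; simp [h] at q2
      rw [← e1, ← e2]
    · have := h0 _ (by subst h1; simp [single]) su
      rw [hu] at this
      exact absurd this (by decide)
  rcases u with _ | ⟨i, b⟩ <;> rcases v with _ | ⟨j, b'⟩
  · rfl
  · exact aux1 j (Or.inl rfl) (Or.inr ⟨b', rfl⟩)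
  · exact aux1 i (Or.inr ⟨b, rfl⟩) (Or.inl rfl)
  · by_cases hij : i = j
    · subst hij
      exact aux1 i (Or.inr ⟨b, rfl⟩) (Or.inr ⟨b', rfl⟩)
    · exact aux2 i j hij ⟨b, rfl⟩ ⟨b', rfl⟩

lemma offn_one {d : ℕ} (u : Nbr d) (a b : Fin d) (ha : offn 5 u a ≠ 0) (hb : offn 5 u b ≠ 0) : a = b := by
  rcases u with _ | ⟨i, c⟩
  · simp [offn, off] at ha
  · have h1 : a = i := by
      by_contra h
      apply ha
      simp [offn, off, Pi.single_eq_of_ne h]
    have h2 : b = i := by
      by_contra h
      apply hb
      simp [offn, off, Pi.single_eq_of_ne h]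
    rw [h1, h2]

lemma offn_inj {d : ℕ} : Function.Injective (offn 5 : Nbr d → Fin d → ZMod 5) := by
  intro u v h
  have d1 : (1 : ZMod 5) ≠ 0 := by decide
  have d2 : (-1 : ZMod 5) ≠ 0 := by decide
  have d3 : (1 : ZMod 5) ≠ -1 := by decide
  rcases u with _ | ⟨i, b⟩ <;> rcases v with _ | ⟨j, b'⟩
  · rfl
  · exfalso
    have := congr_fun h j
    cases b' <;> simp [offn, off] at this <;> first | exact d1 this | exact d1 this.symm
  · exfalso
    have := congr_fun h i
    cases b <;> simp [offn, off] at this <;> first | exact d1 this | exact d1 this.symm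
  · have hij : i = j := by
      by_contra hne
      have := congr_fun h i
      cases b <;> cases b' <;> simp [offn, off, Pi.single_eq_of_ne hne] at this <;>
        first | exact d1 this | exact d1 this.symm
    subst hij
    have := congr_fun h i
    cases b <;> cases b' <;> simp [offn, off] at this ⊢
    · exact d3 this.symm
    · exact d3 this

theorem main {d : ℕ} (hd : 1 ≤ d) (f : (Nbr d → Fin 3) → Fin 3) (hN : NumberConserving f)
    (hR : Function.Injective (globalMap f)) : ∃ u : Nbr d, ∀ x, f x = x u := by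
  -- the zero pattern
  have f0 : f (fun _ => 0) = 0 := by
    rcases type1 f hN hR ⟨0, hd⟩ with ⟨w, _, hw⟩ | h0
    · exact hw _ (fun _ _ _ => rfl)
    · exact h0 _ (fun _ _ _ => rfl)
  -- values on single particles
  have fs : ∀ u : Nbr d, f (single u) = 0 ∨ f (single u) = 1 := by
    intro u
    obtain ⟨i, hi⟩ : ∃ i : Fin d, (u = none ∨ ∃ b, u = some (i, b)) := by
      rcases u with _ | ⟨i, b⟩
      · exact ⟨⟨0, hd⟩, Or.inl rfl⟩
      · exact ⟨i, Or.inr ⟨b, rfl⟩⟩
    have su : ∀ k b, k ≠ i → single u (some (k, b)) = 0 := by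
      intro k b hk
      rcases hi with h | ⟨b', h⟩ <;> subst h <;> simp [single, hk]
    rcases type1 f hN hR i with ⟨w, _, hw⟩ | h0
    · rw [hw _ su]
      simp only [single]
      by_cases h : w = u <;> simp [h]
    · left; exact h0 _ su
  -- existence of the direction
  obtain ⟨w, hw⟩ : ∃ w : Nbr d, f (single w) = 1 := by
    by_contra hcon
    push Not at hcon
    have hz : ∀ u : Nbr d, f (single u) = 0 := fun u => (fs u).resolve_right (hcon u)
    have hs := torus_sum 5 f hN (fun v => if v = 0 then 1 else 0)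
    have h1 : ∑ v : Fin d → ZMod 5, (((if v = 0 then 1 else 0 : Fin 3)) : ℕ) = 1 := by
      rw [Finset.sum_eq_single 0]
      · simp
      · intro v _ hv; simp [hv]
      · simp
    rw [h1] at hs
    have h2 : ∀ v : Fin d → ZMod 5, f (fun u => if v + offn 5 u = 0 then 1 else 0) = 0 := by
      intro v
      by_cases hv : ∃ u, v + offn 5 u = 0
      · obtain ⟨u, hu⟩ := hv
        have : (fun u' => if v + offn 5 u' = 0 then (1 : Fin 3) else 0) = single u := by
          funext u'
          simp only [single]
          have : v + offn 5 u' = 0 ↔ u' = u := by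
            constructor
            · intro h
              apply offn_inj
              have : v + offn 5 u' = v + offn 5 u := by rw [h, hu]
              exact add_left_cancel this
            · intro h; rw [h, hu]
          simp [this]
        rw [this]; exact hz u
      · push Not at hv
        have : (fun u' => if v + offn 5 u' = 0 then (1 : Fin 3) else 0) = fun _ => 0 := by
          funext u'
          simp [hv u']
        rw [this]; exact f0
    simp only [h2] at hs
    simp at hs
  -- small patterns
  have small1 : ∀ (i : Fin d) (x : Nbr d → Fin 3), (∀ k b, k ≠ i → x (some (k, b)) = 0) → f x = x w := by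
    intro i x hx
    rcases type1 f hN hR i with ⟨u, hu, hf⟩ | h0
    · have su : ∀ k b, k ≠ i → single u (some (k, b)) = 0 := by
        intro k b hk
        rcases hu with h | ⟨b', h⟩ <;> subst h <;> simp [single, hk]
      have : f (single u) = 1 := by rw [hf _ su]; simp [single]
      rw [uniq f hN hR w u hw this]
      exact hf x hx
    · rw [h0 x hx]
      rcases w with _ | ⟨k, b⟩
      · exfalso
        have := h0 (single none) (by intro k b _; simp [single])
        rw [hw] at this
        exact absurd this (by decide)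
      · by_cases hk : k = i
        · exfalso
          subst hk
          have := h0 (single (some (k, b))) (by intro k' b' hk'; simp [single, hk'])
          rw [hw] at this
          exact absurd this (by decide)
        · exact (hx k b hk).symm
  have small2 : ∀ (i j : Fin d) (_ : i ≠ j) (x : Nbr d → Fin 3), x none = 0 →
      (∀ k b, k ≠ i → k ≠ j → x (some (k, b)) = 0) → f x = x w := by
    intro i j hij x hx0 hx
    rcases type2 f hN hR i j hij with ⟨u, ⟨b, hu⟩, hf⟩ | h0
    · have su0 : single u none = 0 := by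
        rcases hu with h | h <;> subst h <;> simp [single]
      have su : ∀ k b, k ≠ i → k ≠ j → single u (some (k, b)) = 0 := by
        intro k b' hk hk'
        rcases hu with h | h <;> subst h <;> simp [single, hk, hk']
      have : f (single u) = 1 := by rw [hf _ su0 su]; simp [single]
      rw [uniq f hN hR w u hw this]
      exact hf x hx0 hx
    · rw [h0 x hx0 hx]
      rcases w with _ | ⟨k, b⟩
      · exact hx0.symm
      · by_cases hk : k = i ∨ k = j
        · exfalso
          have := h0 (single (some (k, b))) (by simp [single]) (by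
            intro k' b' hk1 hk2
            have : k' ≠ k := by
              rcases hk with h | h <;> rw [h] <;> assumption
            simp [single, this])
          rw [hw] at this
          exact absurd this (by decide)
        · push Not at hk
          exact (hx k b hk.1 hk.2).symm
  -- general patterns
  refine ⟨w, fun x => ?_⟩
  classical
  set X : (Fin d → ZMod 5) → Fin 3 := Function.extend (offn 5) x (fun _ => 0) with hX
  have X1 : ∀ u, X (offn 5 u) = x u := fun u => offn_inj.extend_apply x _ u
  have X2 : ∀ (v : Fin d → ZMod 5) (a b : Fin d), a ≠ b → v a ≠ 0 → v b ≠ 0 → X v = 0 := by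
    intro v a b hab ha hb
    apply Function.extend_apply'
    rintro ⟨u, rfl⟩
    exact hab (offn_one u a b ha hb)
  have off0 : ∀ (k : Fin d) (b : Bool) (a : Fin d), a ≠ k → offn 5 (some (k, b)) a = 0 := by
    intro k b a ha
    simp [offn, off, Pi.single_eq_of_ne ha]
  have off1 : ∀ (k : Fin d) (b : Bool), offn 5 (some (k, b)) k ≠ 0 := by
    intro k b
    have d1 : (1 : ZMod 5) ≠ 0 := by decide
    cases b <;> simp [offn, off, d1]
  have hv : ∀ v : Fin d → ZMod 5, v ≠ 0 → f (fun u => X (v + offn 5 u)) = X (v + offn 5 w) := by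
    intro v hv0
    obtain ⟨i, hi⟩ : ∃ i, v i ≠ 0 := by
      by_contra h
      push Not at h
      exact hv0 (funext h)
    by_cases hj : ∃ j, j ≠ i ∧ v j ≠ 0
    · obtain ⟨j, hji, hj⟩ := hj
      apply small2 i j hji.symm (fun u => X (v + offn 5 u))
      · apply X2 _ i j hji.symm
        · simpa [offn, off] using hi
        · simpa [offn, off] using hj
      · intro k b hk1 hk2
        apply X2 _ i j hji.symm
        · rw [Pi.add_apply, off0 k b i hk1.symm, add_zero]; exact hi
        · rw [Pi.add_apply, off0 k b j hk2.symm, add_zero]; exact hj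
    · push Not at hj
      apply small1 i (fun u => X (v + offn 5 u))
      intro k b hk
      apply X2 _ i k hk.symm
      · rw [Pi.add_apply, off0 k b i hk.symm, add_zero]; exact hi
      · rw [Pi.add_apply, hj k hk, zero_add]; exact off1 k b
  have s1 := torus_sum 5 f hN X
  have s2 : ∑ v, ((X (v + offn 5 w) : Fin 3) : ℕ) = ∑ v, ((X v : Fin 3) : ℕ) :=
    Fintype.sum_equiv (Equiv.addRight (offn 5 w)) _ _ (fun v => rfl)
  rw [← s2, ← Finset.add_sum_erase _ _ (Finset.mem_univ (0 : Fin d → ZMod 5)),
    ← Finset.add_sum_erase _ _ (Finset.mem_univ (0 : Fin d → ZMod 5))] at s1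
  have s3 : ∑ v ∈ Finset.univ.erase (0 : Fin d → ZMod 5), ((f (fun u => X (v + offn 5 u)) : Fin 3) : ℕ)
      = ∑ v ∈ Finset.univ.erase (0 : Fin d → ZMod 5), ((X (v + offn 5 w) : Fin 3) : ℕ) := by
    apply Finset.sum_congr rfl
    intro v hvm
    rw [hv v (Finset.ne_of_mem_erase hvm)]
  rw [s3] at s1
  have s4 := Nat.add_right_cancel s1
  simp only [zero_add, X1] at s4
  exact Fin.ext s4


end Pool.Agent.L5helper99.NCCA
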