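import Mathlib

/-!
# Number-conserving cellular automata with three states and the von Neumann neighbourhood
-/

set_option autoImplicit false

namespace Pool.Agent.L5helper99.NCCA

/-- The `2 d + 1` positions of the von Neumann neighbourhood in dimension `d`: `none` is the cell
itself, `some (i, true)` its neighbour at `e_i` and `some (i, false)` its neighbour at `-e_i`. -/
abbrev Nbr (d : ℕ) := Option (Fin d × Bool)

/-- The relative position of a neighbour: `0`, `e_i` or `-e_i`. -/
def off {d : ℕ} : Nbr d → (Fin d → ℤ)
  | none => 0
  | some (i, b) => Pi.single i (if b then 1 else -1)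

/-- The global map of the cellular automaton on `ℤ^d` with states `0, 1, 2` and local rule `f`. -/
def globalMap {d : ℕ} (f : (Nbr d → Fin 3) → Fin 3) (x : (Fin d → ℤ) → Fin 3) :
    (Fin d → ℤ) → Fin 3 :=
  fun v => f (fun u => x (v + off u))

/-- The automaton is number-conserving: for every configuration which is periodic along each
coordinate direction (with period `p i > 0` along `e_i`) the sum of the states over one period
is the same for the configuration and for its image. -/
def NumberConserving {d : ℕ} (f : (Nbr d → Fin 3) → Fin 3) : Prop :=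
  ∀ p : Fin d → ℕ, (∀ i, 0 < p i) → ∀ x : (Fin d → ℤ) → Fin 3,
    (∀ v i, x (v + Pi.single i (p i : ℤ)) = x v) →
    ∑ v : (∀ i, Fin (p i)), ((globalMap f x (fun i => ((v i : ℕ) : ℤ)) : Fin 3) : ℕ) =
      ∑ v : (∀ i, Fin (p i)), ((x (fun i => ((v i : ℕ) : ℤ)) : Fin 3) : ℕ)

end Pool.Agent.L5helper99.NCCA
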