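import Mathlib

set_option autoImplicit false

namespace Pool.Agent.L5helper99.NCCA

/-- A ternary function is one of the three projections. -/
def Proj (h : Fin 3 → Fin 3 → Fin 3 → Fin 3) : Prop :=
  (∀ l c r, h l c r = l) ∨ (∀ l c r, h l c r = c) ∨ (∀ l c r, h l c r = r)

def gP (P : ℕ → ℕ → ℕ) (l c r : ℕ) : ℕ := l + P 0 c + P c r - (P 0 l + P l c)

def okP (P : ℕ → ℕ → ℕ) (l c r : ℕ) : Bool :=
  Nat.ble (P 0 l + P l c) (l + P 0 c + P c r) && Nat.ble (l + P 0 c + P c r) (P 0 l + P l c + 2)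

def mkP (p01 p02 p10 p11 p12 p20 p21 p22 : ℕ) (a b : ℕ) : ℕ :=
  match a, b with
  | 0, 0 => 0
  | 0, 1 => p01
  | 0, 2 => p02
  | 1, 0 => p10
  | 1, 1 => p11
  | 1, 2 => p12
  | 2, 0 => p20
  | 2, 1 => p21
  | 2, 2 => p22
  | _, _ => 0

def allOk (P : ℕ → ℕ → ℕ) : Bool :=
  [0,1,2].all fun l => [0,1,2].all fun c => [0,1,2].all fun r => okP P l c r

def img4 (P : ℕ → ℕ → ℕ) (a b c d : ℕ) : List ℕ :=
  [gP P d a b, gP P a b c, gP P b c d, gP P c d a]
def img3 (P : ℕ → ℕ → ℕ) (a b c : ℕ) : List ℕ :=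
  [gP P c a b, gP P a b c, gP P b c a]
def img2 (P : ℕ → ℕ → ℕ) (a b : ℕ) : List ℕ :=
  [gP P b a b, gP P a b a]

def coll (P : ℕ → ℕ → ℕ) : Bool :=
  (img2 P 0 2 == img2 P 1 1) || (img4 P 0 2 2 2 == img4 P 2 2 0 2) ||
  (img4 P 0 0 2 2 == img4 P 2 2 0 0) || (img4 P 0 0 0 2 == img4 P 0 2 0 0) ||
  (img4 P 1 1 2 2 == img4 P 2 2 1 1) || (img3 P 0 1 2 == img3 P 1 0 2) ||
  (img4 P 0 0 2 2 == img4 P 0 1 1 2) || (img4 P 0 0 2 2 == img4 P 1 0 2 1)

def isTriv (P : ℕ → ℕ → ℕ) : Bool :=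
  ([0,1,2].all fun l => [0,1,2].all fun c => [0,1,2].all fun r => Nat.beq (gP P l c r) l) ||
  ([0,1,2].all fun l => [0,1,2].all fun c => [0,1,2].all fun r => Nat.beq (gP P l c r) c) ||
  ([0,1,2].all fun l => [0,1,2].all fun c => [0,1,2].all fun r => Nat.beq (gP P l c r) r)

def good (P : ℕ → ℕ → ℕ) : Bool := !(allOk P) || coll P || isTriv P

def allGood : Bool :=
  [0,1,2].all fun p01 => [0,1,2].all fun p02 => [0,1,2].all fun p10 => [0,1,2].all fun p11 =>
  [0,1,2].all fun p12 => [0,1,2].all fun p20 => [0,1,2].all fun p21 => [0,1,2].all fun p22 =>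
    good (mkP p01 p02 p10 p11 p12 p20 p21 p22)

theorem allGood_true : allGood = true := by decide +kernel

lemma mem3 (a : Fin 3) : (a : ℕ) ∈ ([0,1,2] : List ℕ) := by
  fin_cases a <;> simp

lemma mem3' (a : ℕ) (h : a ∈ ([0,1,2] : List ℕ)) : ∃ b : Fin 3, (b : ℕ) = a := by
  simp at h
  rcases h with h | h | h
  · exact ⟨0, by rw [h]; rfl⟩
  · exact ⟨1, by rw [h]; rfl⟩
  · exact ⟨2, by rw [h]; rfl⟩

theorem class1 (g : Fin 3 → Fin 3 → Fin 3 → Fin 3)
    (hN : ∀ y : ZMod 5 → Fin 3, ∑ i, ((g (y (i-1)) (y i) (y (i+1)) : Fin 3) : ℕ) = ∑ i, (y i : ℕ))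
    (h2 : ∀ y y' : ZMod 2 → Fin 3, (∀ i, g (y (i-1)) (y i) (y (i+1)) = g (y' (i-1)) (y' i) (y' (i+1))) → y = y')
    (h3 : ∀ y y' : ZMod 3 → Fin 3, (∀ i, g (y (i-1)) (y i) (y (i+1)) = g (y' (i-1)) (y' i) (y' (i+1))) → y = y')
    (h4 : ∀ y y' : ZMod 4 → Fin 3, (∀ i, g (y (i-1)) (y i) (y (i+1)) = g (y' (i-1)) (y' i) (y' (i+1))) → y = y') :
    Proj g := by
  have e5 : ∀ a b c d e : Fin 3, ((g e a b : Fin 3) : ℕ) + g a b c + g b c d + g c d e + g d e a
      = a + b + c + d + e := by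
    intro a b c d e
    have := hN (fun i : ZMod 5 => (![a, b, c, d, e] : Fin 5 → Fin 3) i)
    change ∑ i : Fin 5, _ = ∑ i : Fin 5, _ at this
    rw [Fin.sum_univ_five, Fin.sum_univ_five] at this
    exact this
  have z0 : ((g 0 0 0 : Fin 3) : ℕ) = 0 := by
    have := e5 0 0 0 0 0
    simp at this
    omega
  have form : ∀ l c r : Fin 3, ((g l c r : Fin 3) : ℕ) + g 0 0 l + g 0 l c = l + g 0 0 c + g 0 c r := by
    intro l c r
    have a1 := e5 0 l c r 0
    have a2 := e5 0 0 c r 0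
    simp only [Fin.val_zero] at a1 a2
    omega
  obtain ⟨P, hP⟩ : ∃ P : ℕ → ℕ → ℕ, P = mkP (g 0 0 1) (g 0 0 2) (g 0 1 0) (g 0 1 1) (g 0 1 2)
    (g 0 2 0) (g 0 2 1) (g 0 2 2) := ⟨_, rfl⟩
  have hPg : ∀ a b : Fin 3, P a b = g 0 a b := by
    intro a b
    rw [hP]
    fin_cases a <;> fin_cases b <;> simp [mkP, z0]
  have hPg0 : ∀ b : Fin 3, P 0 b = g 0 0 b := fun b => hPg 0 b
  have gval : ∀ l c r : Fin 3, ((g l c r : Fin 3) : ℕ) = gP P l c r := by
    intro l c r
    unfold gP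
    rw [hPg0, hPg0, hPg, hPg]
    have := form l c r
    omega
  have hgood : good P = true := by
    have h := allGood_true
    unfold allGood at h
    rw [List.all_eq_true] at h
    have h1 := h _ (mem3 (g 0 0 1)); rw [List.all_eq_true] at h1
    have h2 := h1 _ (mem3 (g 0 0 2)); rw [List.all_eq_true] at h2
    have h3 := h2 _ (mem3 (g 0 1 0)); rw [List.all_eq_true] at h3
    have h4 := h3 _ (mem3 (g 0 1 1)); rw [List.all_eq_true] at h4
    have h5 := h4 _ (mem3 (g 0 1 2)); rw [List.all_eq_true] at h5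
    have h6 := h5 _ (mem3 (g 0 2 0)); rw [List.all_eq_true] at h6
    have h7 := h6 _ (mem3 (g 0 2 1)); rw [List.all_eq_true] at h7
    rw [hP]
    exact h7 _ (mem3 (g 0 2 2))
  have hok : allOk P = true := by
    unfold allOk
    rw [List.all_eq_true]
    intro l hl
    rw [List.all_eq_true]
    intro c hc
    rw [List.all_eq_true]
    intro r hr
    obtain ⟨l', rfl⟩ := mem3' l hl
    obtain ⟨c', rfl⟩ := mem3' c hc
    obtain ⟨r', rfl⟩ := mem3' r hr
    unfold okP
    rw [hPg0, hPg0, hPg, hPg, Bool.and_eq_true, Nat.ble_eq, Nat.ble_eq]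
    have := form l' c' r'
    have := (g l' c' r').2
    constructor <;> omega
  have k2 : ∀ a b a' b' : Fin 3, img2 P a b = img2 P a' b' → a = a' := by
    intro a b a' b' h
    unfold img2 at h
    simp only [← gval, List.cons.injEq, and_true] at h
    obtain ⟨q1, q2⟩ := h
    have := h2 (fun i : ZMod 2 => (![a, b] : Fin 2 → Fin 3) i) (fun i : ZMod 2 => (![a', b'] : Fin 2 → Fin 3) i) (by
      intro i
      apply Fin.ext
      change Fin 2 at i
      fin_cases i
      · exact q1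
      · exact q2)
    exact congr_fun this 0
  have k3 : ∀ a b c a' b' c' : Fin 3, img3 P a b c = img3 P a' b' c' → a = a' := by
    intro a b c a' b' c' h
    unfold img3 at h
    simp only [← gval, List.cons.injEq, and_true] at h
    obtain ⟨q1, q2, q3⟩ := h
    have := h3 (fun i : ZMod 3 => (![a, b, c] : Fin 3 → Fin 3) i) (fun i : ZMod 3 => (![a', b', c'] : Fin 3 → Fin 3) i) (by
      intro i
      apply Fin.ext
      change Fin 3 at i
      fin_cases i
      · exact q1
      · exact q2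
      · exact q3)
    exact congr_fun this 0
  have k4 : ∀ a b c d a' b' c' d' : Fin 3, img4 P a b c d = img4 P a' b' c' d' → a = a' ∧ b = b' := by
    intro a b c d a' b' c' d' h
    unfold img4 at h
    simp only [← gval, List.cons.injEq, and_true] at h
    obtain ⟨q1, q2, q3, q4⟩ := h
    have := h4 (fun i : ZMod 4 => (![a, b, c, d] : Fin 4 → Fin 3) i) (fun i : ZMod 4 => (![a', b', c', d'] : Fin 4 → Fin 3) i) (by
      intro i
      apply Fin.ext
      change Fin 4 at i
      fin_cases i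
      · exact q1
      · exact q2
      · exact q3
      · exact q4)
    exact ⟨congr_fun this 0, congr_fun this 1⟩
  have hcoll : coll P = false := by
    by_contra h
    have h : coll P = true := by simpa using h
    unfold coll at h
    simp only [Bool.or_eq_true, beq_iff_eq] at h
    rcases h with ((((((h | h) | h) | h) | h) | h) | h) | h
    · exact absurd (k2 0 2 1 1 h) (by decide)
    · exact absurd (k4 0 2 2 2 2 2 0 2 h).1 (by decide)
    · exact absurd (k4 0 0 2 2 2 2 0 0 h).1 (by decide)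
    · exact absurd (k4 0 0 0 2 0 2 0 0 h).2 (by decide)
    · exact absurd (k4 1 1 2 2 2 2 1 1 h).1 (by decide)
    · exact absurd (k3 0 1 2 1 0 2 h) (by decide)
    · exact absurd (k4 0 0 2 2 0 1 1 2 h).2 (by decide)
    · exact absurd (k4 0 0 2 2 1 0 2 1 h).1 (by decide)
  unfold good at hgood
  rw [hok, hcoll] at hgood
  simp only [Bool.not_true, Bool.or_self, Bool.false_or] at hgood
  unfold isTriv at hgood
  rw [Bool.or_eq_true, Bool.or_eq_true] at hgood
  rcases hgood with (h | h) | h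
  · left
    intro l c r
    rw [List.all_eq_true] at h
    have h1 := h _ (mem3 l); rw [List.all_eq_true] at h1
    have h2 := h1 _ (mem3 c); rw [List.all_eq_true] at h2
    have h3 := h2 _ (mem3 r)
    apply Fin.ext
    rw [gval]
    exact Nat.eq_of_beq_eq_true h3
  · right; left
    intro l c r
    rw [List.all_eq_true] at h
    have h1 := h _ (mem3 l); rw [List.all_eq_true] at h1
    have h2 := h1 _ (mem3 c); rw [List.all_eq_true] at h2
    have h3 := h2 _ (mem3 r)
    apply Fin.ext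
    rw [gval]
    exact Nat.eq_of_beq_eq_true h3
  · right; right
    intro l c r
    rw [List.all_eq_true] at h
    have h1 := h _ (mem3 l); rw [List.all_eq_true] at h1
    have h2 := h1 _ (mem3 c); rw [List.all_eq_true] at h2
    have h3 := h2 _ (mem3 r)
    apply Fin.ext
    rw [gval]
    exact Nat.eq_of_beq_eq_true h3


end Pool.Agent.L5helper99.NCCA
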